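import Pool.Agent.Lib.TWM0.G
import Pool.Agent.Lib.TWLM.Fib
import Pool.Agent.Lib.TWCY.Core

/-!
# TANK W, the coefficients of a critical element, part H: the form over the core (radii `0`)

* `exists_dir`: the Hasse derivatives of a field of transcendental type are a direction;
* `der_ext`: two bounded derivations which agree on `W` and the `w i` agree;
* `eder_of_drvt`: approximate derivations over the base from `DrvT`;
* `rel0`: **the relation** `a = e z + x P(z) + a₀` up to null elements, `P = ∑_(i ≤ t) κ i Fr^(i+1)`,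
  `κ t ≠ 0`.
-/

set_option autoImplicit false

open Polynomial Finset

namespace Pool.Agent.TWM0

open Pool.Agent.H15JM (RVal)
open Pool.Agent.LU1 (VPos)
open Pool.Agent.D2 (Ctx0)
open Pool.Agent.D2P (clI mem_clI)
open Pool.Agent.TWM
open Pool.Agent.TWLM (HSd Oi exists_ge_of_gt)
open Pool.Agent.TWII (LP PG)
open Pool.Agent.TWN1 (Par Unh)
open Pool.Agent.TWCY (Trn Drv DrvT HD BaseD)
open Pool.Agent.TWLY (PP)

universe u

variable {k Ω : Type u} [Field k] [Field Ω] [Algebra k Ω] {v : RVal Ω}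
  {W F K : IntermediateField k Ω}

/-! ### Directions -/

/-- **The Hasse derivatives are a direction.** -/
theorem exists_dir [IsAlgClosed Ω] (hΩ : CompleteV v) {C : IntermediateField k Ω} {w : Ω} {ρ : ℝ}
    (hw : TL v C w ρ) (hWC : W ≤ C) :
    ∃ D : ℕ → Ω → Ω, Dir v W (cadj v C w) ρ D ∧ (∀ x ∈ C, D 1 x = 0) ∧ D 1 w = 1 := by
  obtain ⟨D, h1, h2, h3, -⟩ := TWLM.exists_fbr hΩ hw
  have h4 : ∀ l : ℕ, l ≠ 0 → ∀ c ∈ C, D l c = 0 := by
    intro l hl c hc
    have h5 := h2 l (Polynomial.C c) (C_mem_PI hc)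
    rwa [eval_C, hasseDeriv_C l c (Nat.pos_of_ne_zero hl), eval_zero] at h5
  refine ⟨D, { h1.toHSd with norm := ?_, cst := ?_, comp := ?_, oi := h1.oi }, h4 1 one_ne_zero, ?_⟩
  · intro l x hx t ht
    rcases Nat.eq_zero_or_pos l with rfl | hl
    · rw [h1.c0 x hx, Nat.cast_zero, zero_mul, sub_zero]
      exact ht
    · exact (h1.str l hl.ne' x hx t ht).ge
  · exact fun l hl c hc => h4 l hl c (hWC hc)
  · intro l x hx
    rw [h3 l 1 x hx, Nat.choose_succ_self_right]
  · have h5 := h2 1 X X_mem_PI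
    rwa [eval_X, hasseDeriv_one, derivative_X, eval_one] at h5

/-! ### Extension of identities -/

section ext

variable {w : Fin 2 → Ω} {T : (Fin 2 → k) → Ω →ₐ[k] Ω}

theorem eval_mem_sub (S : Subring Ω) (hW : ∀ x ∈ W, x ∈ S) (hw : ∀ i, w i ∈ S)
    {q : MvPolynomial (Fin 2) Ω} (hq : ∀ g, MvPolynomial.coeff g q ∈ W) :
    MvPolynomial.eval w q ∈ S := by
  rw [MvPolynomial.eval_eq']
  exact sum_mem fun g _ => mul_mem (hW _ (hq g)) (prod_mem fun i _ => pow_mem (hw i) _)

/-- **Two bounded derivations which agree on `W` and the `w i`.** -/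
theorem der_ext (hT : Trn v W F w T) {d d' : Ω → Ω} (hd : NDer v F 0 d) (hd' : NDer v F 0 d')
    (hW : ∀ x ∈ W, d x = d' x) (hw : ∀ i, d (w i) = d' (w i)) {x : Ω} (hx : x ∈ F) :
    d x = d' x := by
  let S : Subring Ω :=
    { carrier := {x | x ∈ F ∧ d x = d' x}
      zero_mem' := ⟨zero_mem F, by rw [hd.toDer.zero, hd'.toDer.zero]⟩
      one_mem' := ⟨one_mem F, by rw [hd.toDer.one, hd'.toDer.one]⟩
      add_mem' := fun {x y} hx hy => ⟨add_mem hx.1 hy.1, by
        rw [hd.add x hx.1 y hy.1, hd'.add x hx.1 y hy.1, hx.2, hy.2]⟩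
      neg_mem' := fun {x} hx => ⟨neg_mem hx.1, by
        rw [hd.toDer.neg hx.1, hd'.toDer.neg hx.1, hx.2]⟩
      mul_mem' := fun {x y} hx hy => ⟨mul_mem hx.1 hy.1, by
        rw [hd.mul x hx.1 y hy.1, hd'.mul x hx.1 y hy.1, hx.2, hy.2]⟩ }
  refine sub_eq_zero.1 (TWLM.eq_zero_of_ge (v := v) fun b => ?_)
  obtain ⟨q, hq, h1⟩ := hT.dns x hx b
  have h2 : MvPolynomial.eval w q ∈ S :=
    eval_mem_sub S (fun y hy => ⟨hT.le hy, hW y hy⟩) (fun i => ⟨hT.wF i, hw i⟩) hq
  have h3 := hd.norm _ (sub_mem hx h2.1) b h1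
  have h4 := hd'.norm _ (sub_mem hx h2.1) b h1
  rw [hd.toDer.sub hx h2.1] at h3
  rw [hd'.toDer.sub hx h2.1] at h4
  have e : d x - d' x = (d x - d (MvPolynomial.eval w q)) - (d' x - d' (MvPolynomial.eval w q)) := by
    rw [h2.2]
    ring
  rw [e]
  refine (h3.sub h4).mono (by linarith)

theorem nder_dd {D : Ω → Ω} {dd : Fin 2 → Ω → Ω} (hD : DrvT v W F w T D dd) (i : Fin 2) :
    NDer v F 0 (dd i) where
  mem := hD.ddF i
  add := (hD.drvi i).add
  mul := (hD.drvi i).mul
  norm := fun x hx t ht => by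
    rw [sub_zero]
    exact (hD.drvi i).norm x hx t ht

/-- **Approximate derivations over the base.** -/
theorem eder_of_drvt (hT : Trn v W F w T) {D : Ω → Ω} {dd : Fin 2 → Ω → Ω}
    (hD : DrvT v W F w T D dd) (hF : Cld v F) {DD : Fin 2 → ℕ → Ω → Ω}
    (hDD : ∀ i, ∀ x ∈ F, DD i 1 x = dd i x) : EDer v W F (fun _ => 0) DD D 0 := by
  intro ε hε
  choose g hg hgv using fun i => hD.dL i ε hε
  set E : Ω → Ω := fun x => D x - ∑ i, dd i x * (D (w i) - g i) with hE
  have hEadd : ∀ x ∈ F, ∀ y ∈ F, E (x + y) = E x + E y := by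
    intro x hx y hy
    simp only [hE]
    rw [hD.drv.add x hx y hy]
    have e : ∑ i, dd i (x + y) * (D (w i) - g i) =
        ∑ i, dd i x * (D (w i) - g i) + ∑ i, dd i y * (D (w i) - g i) := by
      rw [← sum_add_distrib]
      refine sum_congr rfl fun i _ => ?_
      rw [(hD.drvi i).add x hx y hy]
      ring
    rw [e]
    ring
  have hEmul : ∀ x ∈ F, ∀ y ∈ F, E (x * y) = x * E y + y * E x := by
    intro x hx y hy
    simp only [hE]
    rw [hD.drv.mul x hx y hy]
    have e : ∑ i, dd i (x * y) * (D (w i) - g i) =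
        x * ∑ i, dd i y * (D (w i) - g i) + y * ∑ i, dd i x * (D (w i) - g i) := by
      rw [mul_sum, mul_sum, ← sum_add_distrib]
      refine sum_congr rfl fun i _ => ?_
      rw [(hD.drvi i).mul x hx y hy]
      ring
    rw [e]
    ring
  have hEW : ∀ x ∈ W, E x = D x := by
    intro x hx
    simp only [hE]
    rw [sum_eq_zero fun i _ => by rw [hD.ddW i x hx, zero_mul], sub_zero]
  have hEw : ∀ i, E (w i) = g i := by
    intro i
    simp only [hE]
    have e : ∑ j, dd j (w i) * (D (w j) - g j) = D (w i) - g i := by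
      rw [sum_eq_single_of_mem i (mem_univ i)]
      · rw [hD.ddw, if_pos rfl, one_mul]
      · intro j _ hj
        rw [hD.ddw, if_neg hj, zero_mul]
    rw [e]
    ring
  have hEn : ∀ x ∈ F, ∀ t : ℝ, v.Ge t x → (∀ i, v.Ge (t + ε) (dd i x)) → v.Ge t (E x) := by
    intro x hx t ht h1
    simp only [hE]
    refine (hD.drv.norm x hx t ht).sub (RVal.Ge.sum _ _ fun i _ => ?_)
    exact ((h1 i).mul (hgv i)).mono (by linarith)
  have hE0 : E 0 = 0 := by
    have h1 := hEadd 0 (zero_mem F) 0 (zero_mem F)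
    rw [add_zero] at h1
    exact left_eq_add.1 h1
  have hE1 : E 1 = 0 := by
    have h1 := hEmul 1 (one_mem F) 1 (one_mem F)
    rw [one_mul, one_mul] at h1
    exact left_eq_add.1 h1
  have hEneg : ∀ x ∈ F, E (-x) = -E x := by
    intro x hx
    have h1 := hEadd x hx (-x) (neg_mem hx)
    rw [add_neg_cancel, hE0] at h1
    exact (neg_eq_of_add_eq_zero_right h1.symm).symm
  have hEmem : ∀ x ∈ F, E x ∈ F := by
    let S : Subring Ω :=
      { carrier := {x | x ∈ F ∧ E x ∈ F}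
        zero_mem' := ⟨zero_mem F, by rw [hE0]; exact zero_mem F⟩
        one_mem' := ⟨one_mem F, by rw [hE1]; exact zero_mem F⟩
        add_mem' := fun {x y} hx hy => ⟨add_mem hx.1 hy.1, by
          rw [hEadd x hx.1 y hy.1]
          exact add_mem hx.2 hy.2⟩
        neg_mem' := fun {x} hx => ⟨neg_mem hx.1, by
          rw [hEneg x hx.1]
          exact neg_mem hx.2⟩
        mul_mem' := fun {x y} hx hy => ⟨mul_mem hx.1 hy.1, by
          rw [hEmul x hx.1 y hy.1]
          exact add_mem (mul_mem hx.1 hy.2) (mul_mem hy.1 hx.2)⟩ }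
    intro x hx
    refine hF (mem_clI.2 fun b => ?_)
    obtain ⟨q, hq, h1⟩ := hT.dns x hx (b + ε)
    have h2 : MvPolynomial.eval w q ∈ S :=
      eval_mem_sub S (fun y hy => ⟨hT.le hy, by rw [hEW y hy]; exact hT.le (hD.dW y hy)⟩)
        (fun i => ⟨hT.wF i, by rw [hEw]; exact hT.le (hg i)⟩) hq
    refine ⟨_, h2.2, ?_⟩
    have h3 : E x - E (MvPolynomial.eval w q) = E (x - MvPolynomial.eval w q) := by
      rw [sub_eq_add_neg, sub_eq_add_neg, hEadd x hx _ (neg_mem h2.1), hEneg _ h2.1]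
    rw [h3]
    exact hEn _ (sub_mem hx h2.1) b (h1.mono (by linarith)) fun i =>
      (hD.drvi i).norm _ (sub_mem hx h2.1) _ h1
  refine ⟨E, ⟨hEmem, hEadd, hEmul⟩, hEW, fun x hx t ht h1 => ?_⟩
  rw [sub_zero]
  refine hEn x hx t ht fun i => ?_
  have h2 := h1 i
  rwa [hDD i x hx, sub_zero] at h2

end ext

/-! ### The relation -/

section rel

variable {p : ℕ} [hp : Fact p.Prime] [CharP Ω p] [IsAlgClosed k] [IsAlgClosed Ω]
  {L : ℕ → IntermediateField k Ω} {w : Fin 2 → Ω} {x z a : Ω} {T : (Fin 2 → k) → Ω →ₐ[k] Ω}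
  {D : Ω → Ω} {dd : Fin 2 → Ω → Ω}

/-- The situation over the core. -/
theorem exists_cx (h : HD p v L W F K w x z a) (hB : BaseD p v W x D) (hT : Trn v W F w T)
    (hD : DrvT v W F w T D dd)
    (hV : ∀ y ∈ F, LP p v F 0 y → (∀ i, Gt v 0 (dd i y)) →
      ∃ c : k, PG p v F 0 (y - algebraMap k Ω c * x)) :
    ∃ DD : Fin 2 → ℕ → Ω → Ω, Cx p v W F {g | g ∈ W} 0 z (fun _ => 0) DD D 0 x 0 := by
  have hp0 : (0 : ℝ) < p := by exact_mod_cast hp.out.pos
  obtain ⟨D0, h01, h02, h03⟩ := exists_dir (W := W) h.cv h.par.t12 (le_cadj v W (w 1))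
  obtain ⟨D1, h11, h12, h13⟩ := exists_dir (W := W) h.cv h.par.t21 (le_cadj v W (w 0))
  rw [← h.par.eq2] at h01
  rw [← h.par.eq1] at h11
  have hcF : Cld v F := by
    rw [h.par.eq1]
    exact cld_cadj v _ _
  set DD : Fin 2 → ℕ → Ω → Ω := ![D0, D1] with hDDdef
  have hdir : ∀ i, Dir v W F ((fun _ => 0 : Fin 2 → ℝ) i) (DD i) := by
    intro i
    fin_cases i
    · exact h01
    · exact h11
  have hDD : ∀ i, ∀ y ∈ F, DD i 1 y = dd i y := by
    intro i y hy
    refine der_ext hT (hdir i).nder (nder_dd hD i)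
      (fun c hc => by rw [(hdir i).cst 1 one_ne_zero c hc, hD.ddW i c hc]) (fun j => ?_) hy
    rw [hD.ddw]
    fin_cases i <;> fin_cases j
    · exact h03
    · exact h02 _ (self_mem_cadj v W (w 1))
    · exact h12 _ (self_mem_cadj v W (w 0))
    · exact h13
  have hrep : Rep v W F := by
    intro c hc hc0
    obtain ⟨y, hy, hy0, hvy⟩ := h.full (v c)
    have h1 : c / y ≠ 0 := div_ne_zero hc0 hy0
    have h2 : v (c / y) = 0 := by rw [div_eq_mul_inv, v.map_mul hc0 (inv_ne_zero hy0),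
      v.map_inv hy0, hvy, add_neg_cancel]
    obtain ⟨κ, -, h3⟩ := h.c0.res _ h1 h2
    refine ⟨y * algebraMap k Ω κ, mul_mem hy (W.algebraMap_mem κ), ?_⟩
    have e : c - y * algebraMap k Ω κ = y * (c / y - algebraMap k Ω κ) := by
      field_simp
    rw [e]
    intro h4
    have h5 : c / y - algebraMap k Ω κ ≠ 0 := right_ne_zero_of_mul h4
    rw [v.map_mul hy0 h5, hvy]
    linarith [h3 h5]
  have hX1 : D x = 1 := hB.Dx
  refine ⟨DD, h.zt, hT.le, fun _ hg => hg, hrep, hdir, eder_of_drvt hT hD hcF hDD, h.xW,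
    by rw [hX1]; exact one_ne_zero, by rw [hX1, v.map_one, sub_zero], ?_, ?_⟩
  · intro ε hε
    obtain ⟨g, hg, h1⟩ := hB.lp ε hε
    exact ⟨g, hT.le hg, h1⟩
  · intro c b hb hl hs
    obtain ⟨y, hy, hy0, hvy⟩ := h.full (c / p)
    have hyF := hT.le hy
    have hyp : y ^ p ≠ 0 := pow_ne_zero p hy0
    have hvyp : v (y ^ p) = c := by
      rw [v.map_pow hy0, hvy, mul_div_cancel₀ _ hp0.ne']
    have hm : b / y ^ p ∈ F := div_mem hb (pow_mem hyF p)
    have hb1 : b = y ^ p * (b / y ^ p) := by field_simp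
    have h1 : LP p v F 0 (b / y ^ p) := by
      intro ε hε
      obtain ⟨g, hg, h2⟩ := hl ε hε
      refine ⟨g / y, div_mem hg hyF, ?_⟩
      have e : b - g ^ p = y ^ p * (b / y ^ p - (g / y) ^ p) := by
        rw [div_pow]
        field_simp
      rw [e] at h2
      have h3 := ge_of_mul hyp h2
      rw [hvyp] at h3
      exact h3.mono (by linarith)
    have h2 : ∀ i, Gt v 0 (dd i (b / y ^ p)) := by
      intro i
      have hn := (nder_dd hD i).toDer
      have h3 := hs i
      rw [hDD i b hb] at h3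
      rw [hb1, hn.mul _ (pow_mem hyF p) _ hm, hn.pow_p p hyF, mul_zero, add_zero] at h3
      intro h4
      have h5 := h3 (mul_ne_zero hyp h4)
      rw [v.map_mul hyp h4, hvyp] at h5
      linarith
    obtain ⟨κ, h3⟩ := hV _ hm h1 h2
    obtain ⟨κ', hκ⟩ := IsAlgClosed.exists_pow_nat_eq κ hp.out.pos
    refine ⟨algebraMap k Ω κ' * y, mul_mem (W.algebraMap_mem κ') hy, ?_⟩
    obtain ⟨g, hg, h4⟩ := h3
    refine ⟨y * g, mul_mem hyF hg, ?_⟩
    have e : b - (algebraMap k Ω κ' * y) ^ p * x - (y * g) ^ p =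
        y ^ p * (b / y ^ p - algebraMap k Ω κ * x - g ^ p) := by
      rw [← hκ, map_pow, _root_.mul_pow, _root_.mul_pow]
      field_simp
    rw [e]
    intro h5
    have h6 := right_ne_zero_of_mul h5
    rw [v.map_mul hyp h6, hvyp]
    linarith [h4 h6]

/-- **The relation.** -/
theorem rel0 (h : HD p v L W F K w x z a) (hB : BaseD p v W x D) (hT : Trn v W F w T)
    (hD : DrvT v W F w T D dd)
    (hV : ∀ y ∈ F, LP p v F 0 y → (∀ i, Gt v 0 (dd i y)) →
      ∃ c : k, PG p v F 0 (y - algebraMap k Ω c * x)) :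
    ∃ (e : k) (κ : ℕ → k) (t : ℕ) (a₀ : Ω), a₀ ∈ F ∧ κ t ≠ 0 ∧
      PG p v K 0 (a - (algebraMap k Ω e * z + x * PP p κ t z + a₀)) := by
  classical
  obtain ⟨DD, hC⟩ := exists_cx h hB hT hD hV
  have hK := h.K_eq
  have haK := h.aK
  rw [hK] at haK
  obtain ⟨f, hf, h1⟩ := h.zt.dense haK 1
  have h1' : Gt v 0 (a - f.eval z) := Gt.of_ge h1 one_pos
  have hlp : LP p v (cadj v F z) 0 (f.eval z) := by
    have h2 := h.lp
    rw [hK] at h2
    have e : f.eval z = a - (a - f.eval z) := by ring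
    rw [e]
    exact h2.sub (LP.of_pg (PG.of_gt h1'))
  obtain ⟨t, e, a₀, g, ⟨e', he'⟩, -, hg, hgv, ha₀, h2⟩ := hC.tie
    (M := Set.range (algebraMap k Ω)) ⟨0, map_zero _⟩
    (fun m hm => by
      obtain ⟨c, rfl⟩ := hm
      exact W.algebraMap_mem c)
    (fun c hc hc0 hv => by
      have h3 : v c = 0 := by
        rcases hv with h3 | ⟨i, h3⟩
        · rw [h3, sub_zero]
        · have h4 : (p : ℝ) * v c = 0 := by linarith
          exact (mul_eq_zero.1 h4).resolve_left (by exact_mod_cast hp.out.ne_zero)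
      obtain ⟨κ, -, h4⟩ := h.c0.res c hc0 h3
      exact ⟨algebraMap k Ω κ, ⟨κ, rfl⟩, fun h5 => by rw [h3]; exact h4 h5⟩) hf hlp
  choose κ' hκ' using hg
  have hPG : PG p v K 0 (a - (e * z + x * ∑ i ∈ range t, g i ^ p * z ^ p ^ (i + 1) + a₀)) := by
    rw [hK]
    have e1 : a - (e * z + x * ∑ i ∈ range t, g i ^ p * z ^ p ^ (i + 1) + a₀) =
        (a - f.eval z) + (f.eval z -
          (e * z + x * ∑ i ∈ range t, g i ^ p * z ^ p ^ (i + 1) + a₀)) := by ring
    rw [e1]
    exact (PG.of_gt h1').add h2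
  by_cases hne : ∃ i, i < t ∧ g i ≠ 0
  · let H : ℕ → Prop := fun i => i < t ∧ g i ≠ 0
    obtain ⟨i₀, hi₀⟩ := hne
    obtain ⟨m, hm, hmax⟩ : ∃ m, H m ∧ ∀ m', m < m' → ¬ H m' := by
      refine ⟨Nat.findGreatest H t, Nat.findGreatest_spec (le_of_lt hi₀.1) hi₀,
        fun m' hm' h3 => ?_⟩
      have := Nat.le_findGreatest (le_of_lt h3.1) h3
      omega
    refine ⟨e', fun i => κ' i ^ p, m, a₀, ha₀, ?_, ?_⟩
    · refine pow_ne_zero p fun h3 => hm.2 ?_
      rw [← hκ', h3, map_zero]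
    · have e1 : PP p (fun i => κ' i ^ p) m z = ∑ i ∈ range t, g i ^ p * z ^ p ^ (i + 1) := by
        unfold TWLY.PP
        have hsub : range (m + 1) ⊆ range t := by
          intro i hi
          rw [mem_range] at hi ⊢
          have := hm.1
          omega
        rw [← sum_subset hsub (f := fun i => g i ^ p * z ^ p ^ (i + 1))]
        · refine sum_congr rfl fun i _ => ?_
          rw [map_pow, hκ']
        · intro i hi hi'
          have h3 : g i = 0 := by
            by_contra h4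
            exact hmax i (by rw [mem_range] at hi'; omega) ⟨mem_range.1 hi, h4⟩
          simp only [h3]
          rw [zero_pow hp.out.ne_zero, zero_mul]
      rw [e1, he']
      exact hPG
  · exfalso
    apply h.hit
    have hz0 : ∑ i ∈ range t, g i ^ p * z ^ p ^ (i + 1) = 0 := sum_eq_zero fun i hi => by
      have h3 : g i = 0 := by
        by_contra h4
        exact hne ⟨i, mem_range.1 hi, h4⟩
      rw [h3, zero_pow hp.out.ne_zero, zero_mul]
    rw [hz0, mul_zero, add_zero] at hPG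
    have heF : e ∈ F := by
      rw [← he']
      exact F.algebraMap_mem e'
    refine ⟨Polynomial.C e * X + Polynomial.C a₀,
      add_mem (mul_mem (C_mem_PI heF) X_mem_PI) (C_mem_PI ha₀), ?_, fun l hpl hl0 => ?_⟩
    · rw [eval_add, eval_mul, eval_C, eval_X, eval_C]
      exact hPG
    · have hl1 : 1 < l := lt_of_lt_of_le hp.out.one_lt (Nat.le_of_dvd (Nat.pos_of_ne_zero hl0) hpl)
      have h3 : (taylor z (Polynomial.C e * X + Polynomial.C a₀)).coeff l = 0 := by
        refine coeff_eq_zero_of_natDegree_lt ?_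
        rw [natDegree_taylor]
        refine lt_of_le_of_lt ?_ hl1
        compute_degree
      rw [h3]
      exact PG.of_gt Gt.zero

end rel

end Pool.Agent.TWM0
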