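import Pool.Agent.Lib.TWII.Soc
import Pool.Agent.Lib.TWLM.Arc

/-!
# TANK W, the coefficients of a critical element, part A: derivations and polynomials

* `Der F d`: `d` is a derivation of the field `F`;
* `dp d f`: the derivation applied to the coefficients of the polynomial `f`;
* `DH d h f = dp d f + h f'`: the derivation of `F[Z]` with `Z ↦ h`.
-/

set_option autoImplicit false

open Polynomial Finset

namespace Pool.Agent.TWM0

open Pool.Agent.H15JM (RVal)
open Pool.Agent.TWM
open Pool.Agent.TWLM (HSd)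

universe u

variable {k Ω : Type u} [Field k] [Field Ω] [Algebra k Ω] {v : RVal Ω}
  {F : IntermediateField k Ω} {d : Ω → Ω}

/-- A derivation of `F`. -/
structure Der (F : IntermediateField k Ω) (d : Ω → Ω) : Prop where
  mem : ∀ x ∈ F, d x ∈ F
  add : ∀ x ∈ F, ∀ y ∈ F, d (x + y) = d x + d y
  mul : ∀ x ∈ F, ∀ y ∈ F, d (x * y) = x * d y + y * d x

namespace Der

theorem zero (h : Der F d) : d 0 = 0 := by
  have h1 := h.add 0 (zero_mem F) 0 (zero_mem F)
  rw [add_zero] at h1
  exact left_eq_add.1 h1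

theorem one (h : Der F d) : d 1 = 0 := by
  have h1 := h.mul 1 (one_mem F) 1 (one_mem F)
  rw [one_mul, one_mul] at h1
  exact left_eq_add.1 h1

theorem neg (h : Der F d) {x : Ω} (hx : x ∈ F) : d (-x) = -d x := by
  have h1 := h.add x hx (-x) (neg_mem hx)
  rw [add_neg_cancel, h.zero] at h1
  exact (neg_eq_of_add_eq_zero_right h1.symm).symm

theorem sub (h : Der F d) {x y : Ω} (hx : x ∈ F) (hy : y ∈ F) : d (x - y) = d x - d y := by
  rw [sub_eq_add_neg, h.add x hx (-y) (neg_mem hy), h.neg hy, sub_eq_add_neg]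

theorem sum (h : Der F d) {ι : Type*} (S : Finset ι) (f : ι → Ω) (hf : ∀ i ∈ S, f i ∈ F) :
    d (∑ i ∈ S, f i) = ∑ i ∈ S, d (f i) := by
  classical
  induction S using Finset.induction_on with
  | empty => rw [sum_empty, sum_empty, h.zero]
  | insert a S ha ih =>
    rw [sum_insert ha, sum_insert ha, h.add _ (hf a (mem_insert_self a S)) _
      (sum_mem fun i hi => hf i (mem_insert_of_mem hi)), ih fun i hi => hf i (mem_insert_of_mem hi)]

theorem natCast (h : Der F d) (n : ℕ) : d (n : Ω) = 0 := by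
  induction n with
  | zero => rw [Nat.cast_zero, h.zero]
  | succ n ih =>
    rw [Nat.cast_succ, h.add _ (natCast_mem F n) _ (one_mem F), ih, h.one, add_zero]

theorem natCast_mul (h : Der F d) (n : ℕ) {x : Ω} (hx : x ∈ F) : d (n * x) = n * d x := by
  rw [h.mul _ (natCast_mem F n) x hx, h.natCast, mul_zero, add_zero]

theorem pow (h : Der F d) {x : Ω} (hx : x ∈ F) (n : ℕ) : d (x ^ n) = n * x ^ (n - 1) * d x := by
  induction n with
  | zero => rw [pow_zero, h.one, Nat.cast_zero, zero_mul, zero_mul]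
  | succ n ih =>
    rw [pow_succ, h.mul _ (pow_mem hx n) x hx, ih, Nat.add_sub_cancel]
    rcases Nat.eq_zero_or_pos n with rfl | hn
    · simp
    · obtain ⟨m, rfl⟩ : ∃ m, n = m + 1 := ⟨n - 1, by omega⟩
      rw [Nat.add_sub_cancel]
      push_cast
      ring

theorem pow_p (h : Der F d) (p : ℕ) [CharP Ω p] {x : Ω} (hx : x ∈ F) : d (x ^ p) = 0 := by
  rw [h.pow hx, CharP.cast_eq_zero, zero_mul, zero_mul]

end Der

/-- The first derivation of a system of Hasse derivatives. -/
theorem der_one {D : ℕ → Ω → Ω} (h : HSd F D) : Der F (D 1) where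
  mem := fun x hx => h.mem 1 x hx
  add := fun x hx y hy => h.add 1 x hx y hy
  mul := fun x hx y hy => by
    rw [h.mul 1 x hx y hy]
    have e : Finset.HasAntidiagonal.antidiagonal 1 = {((0 : ℕ), (1 : ℕ)), (1, 0)} := by
      decide
    rw [e, sum_insert (by decide), sum_singleton, h.c0 x hx, h.c0 y hy]
    ring

/-- The derivation applied to the coefficients. -/
noncomputable def dp (d : Ω → Ω) (f : Polynomial Ω) : Polynomial Ω :=
  ∑ i ∈ range (f.natDegree + 1), monomial i (d (f.coeff i))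

theorem coeff_dp (h0 : d 0 = 0) (f : Polynomial Ω) (i : ℕ) : (dp d f).coeff i = d (f.coeff i) := by
  rw [dp, finsetSum_coeff]
  simp only [coeff_monomial]
  rw [sum_ite_eq']
  split_ifs with h1
  · rfl
  · rw [coeff_eq_zero_of_natDegree_lt (by rw [mem_range] at h1; omega), h0]

section

variable {f g : Polynomial Ω}

theorem dp_mem (h : Der F d) (hf : f ∈ PI F) : dp d f ∈ PI F := fun i => by
  rw [coeff_dp h.zero]
  exact h.mem _ (hf i)

theorem dp_add (h : Der F d) (hf : f ∈ PI F) (hg : g ∈ PI F) : dp d (f + g) = dp d f + dp d g := by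
  ext i
  rw [coeff_add, coeff_dp h.zero, coeff_dp h.zero, coeff_dp h.zero, coeff_add,
    h.add _ (hf i) _ (hg i)]

theorem dp_sub (h : Der F d) (hf : f ∈ PI F) (hg : g ∈ PI F) : dp d (f - g) = dp d f - dp d g := by
  ext i
  rw [coeff_sub, coeff_dp h.zero, coeff_dp h.zero, coeff_dp h.zero, coeff_sub,
    h.sub (hf i) (hg i)]

theorem dp_C (h : Der F d) (a : Ω) : dp d (C a) = C (d a) := by
  ext i
  rw [coeff_dp h.zero, coeff_C, coeff_C]
  split_ifs with h1
  · rfl
  · exact h.zero

theorem dp_mul (h : Der F d) (hf : f ∈ PI F) (hg : g ∈ PI F) :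
    dp d (f * g) = f * dp d g + g * dp d f := by
  ext i
  rw [coeff_add, coeff_dp h.zero, coeff_mul, mul_comm g, coeff_mul, coeff_mul,
    h.sum _ _ fun x _ => mul_mem (hf _) (hg _), ← sum_add_distrib]
  refine sum_congr rfl fun x _ => ?_
  rw [h.mul _ (hf _) _ (hg _), coeff_dp h.zero, coeff_dp h.zero]
  ring

theorem dp_one (h : Der F d) : dp d (1 : Polynomial Ω) = 0 := by
  rw [← C_1, dp_C h, h.one, C_0]

theorem dp_pow (h : Der F d) (hf : f ∈ PI F) (n : ℕ) :
    dp d (f ^ n) = (n : Polynomial Ω) * f ^ (n - 1) * dp d f := by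
  induction n with
  | zero => rw [pow_zero, dp_one h, Nat.cast_zero, zero_mul, zero_mul]
  | succ n ih =>
    rw [pow_succ, dp_mul h (pow_mem hf n) hf, ih, Nat.add_sub_cancel]
    rcases Nat.eq_zero_or_pos n with rfl | hn
    · simp
    · obtain ⟨m, rfl⟩ : ∃ m, n = m + 1 := ⟨n - 1, by omega⟩
      rw [Nat.add_sub_cancel]
      push_cast
      ring

theorem dp_pow_p (h : Der F d) (p : ℕ) [CharP Ω p] (hf : f ∈ PI F) : dp d (f ^ p) = 0 := by
  rw [dp_pow h hf, CharP.cast_eq_zero, zero_mul, zero_mul]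

theorem dp_hasse (h : Der F d) (hf : f ∈ PI F) (l : ℕ) :
    hasseDeriv l (dp d f) = dp d (hasseDeriv l f) := by
  ext i
  rw [hasseDeriv_coeff, coeff_dp h.zero, coeff_dp h.zero, hasseDeriv_coeff,
    h.natCast_mul _ (hf _)]

/-- The chain rule. -/
theorem dp_eval (h : Der F d) (hf : f ∈ PI F) {θ : Ω} (hθ : θ ∈ F) :
    d (f.eval θ) = (dp d f).eval θ + (derivative f).eval θ * d θ := by
  have e1 : (dp d f).eval θ = ∑ i ∈ range (f.natDegree + 1), d (f.coeff i) * θ ^ i := by
    rw [dp, eval_finsetSum]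
    exact sum_congr rfl fun i _ => eval_monomial
  have e2 : (derivative f).eval θ =
      ∑ i ∈ range (f.natDegree + 1), f.coeff i * ((i : Ω) * θ ^ (i - 1)) := by
    conv_lhs => rw [f.as_sum_range]
    rw [derivative_sum, eval_finsetSum]
    refine sum_congr rfl fun i _ => ?_
    rw [derivative_monomial, eval_monomial]
    ring
  rw [e1, e2, eval_eq_sum_range, h.sum _ _ fun i _ => mul_mem (hf i) (pow_mem hθ i), sum_mul,
    ← sum_add_distrib]
  refine sum_congr rfl fun i _ => ?_
  rw [h.mul _ (hf i) _ (pow_mem hθ i), h.pow hθ]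
  ring

/-- The derivation of `F[Z]`, `Z ↦ h`. -/
noncomputable def DH (d : Ω → Ω) (h : Ω) (f : Polynomial Ω) : Polynomial Ω :=
  dp d f + C h * derivative f

theorem derivative_mem (hf : f ∈ PI F) : derivative f ∈ PI F := fun i => by
  rw [coeff_derivative]
  exact mul_mem (hf _) (add_mem (natCast_mem F i) (one_mem F))

variable {c : Ω}

theorem DH_mem (h : Der F d) (hc : c ∈ F) (hf : f ∈ PI F) : DH d c f ∈ PI F :=
  add_mem (dp_mem h hf) (mul_mem (C_mem_PI hc) (derivative_mem hf))

theorem DH_add (h : Der F d) (hf : f ∈ PI F) (hg : g ∈ PI F) :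
    DH d c (f + g) = DH d c f + DH d c g := by
  rw [DH, DH, DH, dp_add h hf hg, derivative_add]
  ring

theorem DH_sub (h : Der F d) (hf : f ∈ PI F) (hg : g ∈ PI F) :
    DH d c (f - g) = DH d c f - DH d c g := by
  rw [DH, DH, DH, dp_sub h hf hg, derivative_sub]
  ring

theorem DH_C (h : Der F d) (a : Ω) : DH d c (C a) = C (d a) := by
  rw [DH, dp_C h, derivative_C, mul_zero, add_zero]

theorem DH_pow_p (h : Der F d) (p : ℕ) [CharP Ω p] (hf : f ∈ PI F) : DH d c (f ^ p) = 0 := by
  rw [DH, dp_pow_p h p hf, derivative_pow, CharP.cast_eq_zero, C_0, zero_mul, zero_mul, mul_zero,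
    add_zero]

theorem DH_hasse (h : Der F d) (hf : f ∈ PI F) (l : ℕ) :
    hasseDeriv l (DH d c f) = DH d c (hasseDeriv l f) := by
  rw [DH, DH, map_add, dp_hasse h hf]
  congr 1
  have e : derivative (hasseDeriv l f) = hasseDeriv l (derivative f) := by
    rw [← hasseDeriv_one, ← LinearMap.comp_apply, ← LinearMap.comp_apply, hasseDeriv_comp,
      hasseDeriv_comp, add_comm 1 l, Nat.choose_symm_add]
  rw [e]
  ext i
  rw [hasseDeriv_coeff, coeff_C_mul, coeff_C_mul, hasseDeriv_coeff]
  ring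

/-- The value at an element of `F`. -/
theorem DH_eval (h : Der F d) (hf : f ∈ PI F) {θ : Ω} (hθ : θ ∈ F) :
    (DH d c f).eval θ = d (f.eval θ) - (derivative f).eval θ * (d θ - c) := by
  rw [dp_eval h hf hθ, DH, eval_add, eval_mul, eval_C]
  ring

theorem DH_diff (c c' : Ω) : DH d c f - DH d c' f = C (c - c') * derivative f := by
  rw [DH, DH, C_sub]
  ring

end

end Pool.Agent.TWM0
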