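import Pool.Agent.Lib.TWM0.A
import Pool.Agent.Lib.TWII.PropHV

/-!
# TANK W, the coefficients of a critical element, part B: the derivations of the jets

`z` of transcendental type over `F`, `K = F⟨z⟩`, `d` a derivation of `F` of norm `σ`:

* `Vl v F s z d r h`: `h` is the value of `d` at `z`, up to `r`;
* `SD v F s z σ d c f`: the derivation `d` is strict on `f(z)`, at the level `c`;
* `jets_sd`: if `f(z)` is critical, then `d` is strict on its proper jets, when `d z` is attained or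
  the derivative in `z` is strict.
-/

set_option autoImplicit false

open Polynomial Finset

namespace Pool.Agent.TWM0

open Pool.Agent.H15JM (RVal)
open Pool.Agent.TWM
open Pool.Agent.TWLM (HSd exists_ge_of_gt)
open Pool.Agent.TWII (LP PG)

universe u

variable {k Ω : Type u} [Field k] [Field Ω] [Algebra k Ω] {v : RVal Ω}
  {F : IntermediateField k Ω} {d : Ω → Ω} {s σ ν : ℝ} {z : Ω}

/-- A derivation of norm `σ`. -/
structure NDer (v : RVal Ω) (F : IntermediateField k Ω) (σ : ℝ) (d : Ω → Ω) : Prop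
    extends Der F d where
  norm : ∀ x ∈ F, ∀ t : ℝ, v.Ge t x → v.Ge (t - σ) (d x)

/-- `h` is the value of `d` at `z`, up to `r`. -/
def Vl (v : RVal Ω) (F : IntermediateField k Ω) (s : ℝ) (z : Ω) (d : Ω → Ω) (r : ℝ) (h : Ω) :
    Prop :=
  TWII.Nr v F s z fun θ => v.Ge r (d θ - h)

theorem Vl.mono {r r' : ℝ} {h : Ω} (hv : Vl v F s z d r h) (hr : r' ≤ r) : Vl v F s z d r' h :=
  TWII.Nr.mono hv fun _ _ h1 => h1.mono hr

theorem Vl.diff {r r' : ℝ} {h h' : Ω} (hl : Lim v F s z) (hv : Vl v F s z d r h)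
    (hv' : Vl v F s z d r' h') : v.Ge (min r r') (h - h') := by
  obtain ⟨θ, -, h1, h2⟩ := (TWII.Nr.and hv hv').exists hl
  have e : h - h' = (d θ - h') - (d θ - h) := by ring
  rw [e]
  exact (h2.mono (min_le_right _ _)).sub (h1.mono (min_le_left _ _))

theorem NDer.exists_vl (hd : NDer v F σ d) (hl : Lim v F s z) {ε : ℝ} (hε : 0 < ε) :
    ∃ h ∈ F, Vl v F s z d (s - σ - ε) h := by
  obtain ⟨θ₀, hθ₀, h1⟩ := hl ε hε
  refine ⟨d θ₀, hd.mem _ hθ₀, ε, hε, fun θ hθ h2 => ?_⟩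
  show v.Ge (s - σ - ε) (d θ - d θ₀)
  rw [← hd.toDer.sub hθ hθ₀]
  have e : θ - θ₀ = (z - θ₀) - (z - θ) := by ring
  refine (hd.norm _ (sub_mem hθ hθ₀) (s - ε) ?_).mono (by linarith)
  rw [e]
  exact h1.sub h2

section

variable [IsAlgClosed Ω] {f : Polynomial Ω}

theorem near_ge (hz : TL v F z s) (hf : f ∈ PI F) {b : ℝ} (hb : v.Ge b (f.eval z)) :
    TWII.Nr v F s z fun θ => v.Ge b (f.eval θ) := by
  by_cases h0 : f = 0
  · refine TWII.Nr.of_forall fun θ _ => ?_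
    rw [h0, eval_zero]
    exact RVal.Ge.zero
  obtain ⟨δ, hδ, h1⟩ := hz.near_val (PI_mono (le_algc F) hf) h0
  refine ⟨δ, hδ, fun θ _ h2 => fun _ => ?_⟩
  rw [(h1 θ h2).2]
  exact hb (hz.eval_ne (PI_mono (le_algc F) hf) h0)

theorem ge_of_near (hz : TL v F z s) (hf : f ∈ PI F) {b : ℝ}
    (hb : TWII.Nr v F s z fun θ => v.Ge b (f.eval θ)) : v.Ge b (f.eval z) := by
  by_cases h0 : f = 0
  · rw [h0, eval_zero]
    exact RVal.Ge.zero
  obtain ⟨δ, hδ, h1⟩ := hz.near_val (PI_mono (le_algc F) hf) h0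
  obtain ⟨θ, -, h2, h3⟩ := (hb.and (TWII.Nr.near (v := v) (F := F) (ρ := s) (u := z) hδ)).exists
    hz.lim
  intro _
  rw [← (h1 θ h3).2]
  exact h2 (h1 θ h3).1

/-- **The values of the derivations.** -/
theorem DH_ge_of (hz : TL v F z s) (hd : Der F d) {c : Ω} (hc : c ∈ F) (hf : f ∈ PI F) {b : ℝ}
    (h1 : TWII.Nr v F s z fun θ => v.Ge b (d (f.eval θ)))
    (h2 : TWII.Nr v F s z fun θ => v.Ge b ((derivative f).eval θ * (d θ - c))) :
    v.Ge b ((DH d c f).eval z) := by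
  refine ge_of_near hz (DH_mem hd hc hf) ((h1.and h2).mono fun θ hθ h3 => ?_)
  rw [DH_eval hd hf hθ]
  exact h3.1.sub h3.2

theorem DH_ge (hz : TL v F z s) (hd : NDer v F σ d) {c : Ω} (hc : c ∈ F) (hf : f ∈ PI F)
    {b t t' r : ℝ} (hv : Vl v F s z d r c) (h1 : v.Ge t (f.eval z))
    (h2 : v.Ge t' ((derivative f).eval z)) (hb : b ≤ t - σ) (hb' : b ≤ t' + r) :
    v.Ge b ((DH d c f).eval z) := by
  refine DH_ge_of hz hd.toDer hc hf ((near_ge hz hf h1).mono fun θ hθ h3 => ?_)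
    (((near_ge hz (derivative_mem hf) h2).and hv).mono fun θ _ h3 => ?_)
  · exact (hd.norm _ (eval_mem hf hθ) t h3).mono hb
  · exact (h3.1.mul h3.2).mono hb'

variable (p : ℕ) [hp : Fact p.Prime] [CharP Ω p]

omit [IsAlgClosed Ω] hp in
theorem derivative_sub_pow {G : Polynomial Ω} : derivative (f - G ^ p) = derivative f := by
  rw [derivative_sub, derivative_pow, CharP.cast_eq_zero, C_0, zero_mul, zero_mul, sub_zero]

/-- **The derivations of a critical element.** -/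
theorem crit_ge (hz : TL v F z s) (hd : NDer v F σ d) {c : Ω} (hc : c ∈ F) (hf : f ∈ PI F)
    {t' r b : ℝ} (hlp : LP p v (cadj v F z) ν (f.eval z)) (hv : Vl v F s z d r c)
    (h2 : v.Ge t' ((derivative f).eval z)) (hb : b ≤ ν - σ) (hb' : b ≤ t' + r) :
    v.Ge b ((DH d c f).eval z) := by
  intro h0
  refine le_of_forall_pos_le_add fun ε hε => ?_
  obtain ⟨G, hG, h3⟩ := LP.poly p hz hlp hε
  have h4 := DH_ge (b := b - ε) hz hd hc (sub_mem hf (pow_mem hG p)) hv h3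
    (by rw [derivative_sub_pow p]; exact h2) (by linarith) (by linarith)
  rw [DH_sub hd.toDer hf (pow_mem hG p), DH_pow_p hd.toDer p hG, sub_zero] at h4
  linarith [h4 h0]

theorem crit_ge' (hz : TL v F z s) (hd : NDer v F σ d) {c : Ω} (hc : c ∈ F) (hf : f ∈ PI F)
    (hlp : LP p v (cadj v F z) ν (f.eval z)) (hv : ∀ ε : ℝ, 0 < ε → Vl v F s z d (s - σ - ε) c) :
    v.Ge (ν - σ) ((DH d c f).eval z) := by
  intro h0
  refine le_of_forall_pos_le_add fun ε hε => ?_
  have hp1 : ¬ p ∣ 1 := fun h5 => hp.out.one_lt.not_ge (Nat.le_of_dvd one_pos h5)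
  have h1 := LP.jet_prime p hz hf hlp hp1
  rw [taylor_coeff, hasseDeriv_one, Nat.cast_one, one_mul] at h1
  obtain ⟨G, hG, h3⟩ := LP.poly p hz hlp hε
  have h4 := DH_ge (b := ν - σ - ε) hz hd hc (sub_mem hf (pow_mem hG p)) (hv ε hε) h3
    (by rw [derivative_sub_pow p]; exact h1) (by linarith) (by linarith)
  rw [DH_sub hd.toDer hf (pow_mem hG p), DH_pow_p hd.toDer p hG, sub_zero] at h4
  linarith [h4 h0]

omit hp [CharP Ω p] in
/-- The proper jets. -/
theorem DH_jet_gt (hz : TL v F z s) (hd : Der F d) {c : Ω} (hc : c ∈ F) (hf : f ∈ PI F) {b : ℝ}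
    (h : v.Ge b ((DH d c f).eval z)) {l : ℕ} (hl : l ≠ 0) :
    Gt v (b - l * s) ((DH d c (hasseDeriv l f)).eval z) := by
  have h1 := TWII.TL.jet_gt hz (DH_mem hd hc hf) h (l := l) (by omega)
  rwa [taylor_coeff, DH_hasse hd hf] at h1

end

/-- The derivation `d` is strict on `f(z)`, at the level `c`. -/
def SD (v : RVal Ω) (F : IntermediateField k Ω) (s : ℝ) (z : Ω) (σ : ℝ) (d : Ω → Ω) (c : ℝ)
    (f : Polynomial Ω) : Prop :=
  ∃ r : ℝ, r < s - σ ∧ ∀ h ∈ F, Vl v F s z d r h → Gt v (c - σ) ((DH d h f).eval z)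

theorem sd_of (hl : Lim v F s z) {f : Polynomial Ω} {c μ r₀ : ℝ} {h₀ : Ω}
    (h1 : Gt v (c - σ) ((DH d h₀ f).eval z)) (hv : Vl v F s z d r₀ h₀)
    (h2 : v.Ge μ ((derivative f).eval z)) (hμ : c - s < μ) (hr : c - σ < μ + r₀) :
    SD v F s z σ d c f := by
  refine ⟨(c - μ + s - 2 * σ) / 2, by linarith, fun h hh hvh => ?_⟩
  have e : (DH d h f).eval z = (DH d h₀ f).eval z + (h - h₀) * (derivative f).eval z := by
    have h3 := DH_diff (d := d) (f := f) h h₀
    have h4 := congrArg (fun P => P.eval z) h3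
    simp only [eval_sub, eval_mul, eval_C] at h4
    linear_combination h4
  rw [e]
  have h3 := Vl.diff hl hvh hv
  refine h1.add (Gt.of_ge (h3.mul h2) ?_)
  rcases le_total ((c - μ + s - 2 * σ) / 2) r₀ with h5 | h5
  · rw [min_eq_left h5]
    linarith
  · rw [min_eq_right h5]
    linarith

theorem SD.exists_vl (hl : Lim v F s z) (hd : NDer v F σ d) {f : Polynomial Ω} {c : ℝ}
    (h : SD v F s z σ d c f) (r' : ℝ) (hr' : r' < s - σ) :
    ∃ h₀ ∈ F, Vl v F s z d r' h₀ ∧ Gt v (c - σ) ((DH d h₀ f).eval z) := by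
  obtain ⟨r, hr, h1⟩ := h
  obtain ⟨h₀, hh₀, h2⟩ := hd.exists_vl hl (ε := s - σ - max r r') (by
    have := max_lt hr hr'
    linarith)
  have h3 : Vl v F s z d (max r r') h₀ := h2.mono (by linarith)
  exact ⟨h₀, hh₀, h3.mono (le_max_right _ _), h1 h₀ hh₀ (h3.mono (le_max_left _ _))⟩

theorem hasse_derivative (f : Polynomial Ω) (l : ℕ) :
    derivative (hasseDeriv l f) = hasseDeriv l (derivative f) := by
  rw [← hasseDeriv_one, ← LinearMap.comp_apply, ← LinearMap.comp_apply, hasseDeriv_comp,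
    hasseDeriv_comp, add_comm 1 l, Nat.choose_symm_add]

/-- **The proper jets of a critical element have a strict derivative.** -/
theorem jets_sd [IsAlgClosed Ω] (p : ℕ) [hp : Fact p.Prime] [CharP Ω p] (hz : TL v F z s)
    (hd : NDer v F σ d) {f : Polynomial Ω} (hf : f ∈ PI F)
    (hlp : LP p v (cadj v F z) ν (f.eval z))
    (hat : ¬ Gt v (ν - s) ((derivative f).eval z) →
      ∃ h₀ ∈ F, ∀ ε : ℝ, 0 < ε → Vl v F s z d (s - σ - ε) h₀) {l : ℕ} (hl : l ≠ 0) :
    SD v F s z σ d (ν - l * s) (hasseDeriv l f) := by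
  have hp1 : ¬ p ∣ 1 := fun h5 => hp.out.one_lt.not_ge (Nat.le_of_dvd one_pos h5)
  have h1 := LP.jet_prime p hz hf hlp hp1
  rw [taylor_coeff, hasseDeriv_one, Nat.cast_one, one_mul] at h1
  by_cases hs : Gt v (ν - s) ((derivative f).eval z)
  · obtain ⟨η, hη, h2⟩ := exists_ge_of_gt hs
    obtain ⟨h₀, hh₀, h3⟩ := hd.exists_vl hz.lim (ε := η / 2) (half_pos hη)
    have h4 := crit_ge (b := ν - σ) p hz hd hh₀ hf hlp h3 h2 le_rfl (by linarith)
    have h5 := DH_jet_gt hz hd.toDer hh₀ hf h4 hl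
    refine sd_of hz.lim (μ := ν - s + η - l * s) (h5.mono (by linarith)) h3 ?_ (by linarith)
      (by linarith)
    have h6 := TWII.TL.jet_ge hz (derivative_mem hf) h2 l
    rwa [taylor_coeff, ← hasse_derivative] at h6
  · obtain ⟨h₀, hh₀, h3⟩ := hat hs
    have h4 := crit_ge' p hz hd hh₀ hf hlp h3
    have h5 := DH_jet_gt hz hd.toDer hh₀ hf h4 hl
    have h6 := TWII.TL.jet_gt hz (derivative_mem hf) h1 (l := l) (by omega)
    rw [taylor_coeff, ← hasse_derivative] at h6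
    obtain ⟨η, hη, h7⟩ := exists_ge_of_gt h6
    exact sd_of hz.lim (h5.mono (by linarith)) (h3 (η / 2) (half_pos hη)) h7 (by linarith)
      (by linarith)

end Pool.Agent.TWM0
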