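import Pool.Agent.Lib.TWM0.B

/-!
# TANK W, the coefficients of a critical element, part C: the value of a derivation is not additive

`z` of transcendental type over `F`, `D` a system of Hasse derivatives of `F`, constants `W`.

* `Dir v W F σ D`: `D` has norm `σ` per order, `D l (D 1 x) = (l + 1) D (l + 1) x`, overconvergent;
* `Dir.no_add`: the value `D 1 z` is not `f₀ + R(z)`, `R ≠ 0` an additive polynomial over `W`.
-/

set_option autoImplicit false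

open Polynomial Finset

namespace Pool.Agent.TWM0

open Pool.Agent.H15JM (RVal)
open Pool.Agent.TWM
open Pool.Agent.TWLM (HSd Oi exists_ge_of_gt)
open Pool.Agent.TWII (LP PG)

universe u

variable {k Ω : Type u} [Field k] [Field Ω] [Algebra k Ω] {v : RVal Ω}
  {W F : IntermediateField k Ω} {D : ℕ → Ω → Ω} {s σ r : ℝ} {z : Ω}

/-- A direction of `F` over `W`. -/
structure Dir (v : RVal Ω) (W F : IntermediateField k Ω) (σ : ℝ) (D : ℕ → Ω → Ω) : Prop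
    extends HSd F D where
  norm : ∀ l : ℕ, ∀ x ∈ F, ∀ t : ℝ, v.Ge t x → v.Ge (t - l * σ) (D l x)
  cst : ∀ l : ℕ, l ≠ 0 → ∀ c ∈ W, D l c = 0
  comp : ∀ l : ℕ, ∀ x ∈ F, D l (D 1 x) = ((l + 1 : ℕ) : Ω) * D (l + 1) x
  oi : Oi v F σ D

theorem Dir.nder (h : Dir v W F σ D) : NDer v F σ (D 1) :=
  { der_one h.toHSd with
    norm := fun x hx t ht => by
      have h1 := h.norm 1 x hx t ht
      rwa [Nat.cast_one, one_mul] at h1 }

/-- The multiples by constants. -/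
theorem Dir.smul (h : Dir v W F σ D) (hWF : W ≤ F) {c : Ω} (hc : c ∈ W) {x : Ω} (hx : x ∈ F)
    (l : ℕ) : D l (c * x) = c * D l x := by
  rw [h.mul l c (hWF hc) x hx, sum_eq_single_of_mem ((0 : ℕ), l) (by simp)]
  · rw [h.c0 c (hWF hc)]
  · intro i hi hne
    have h1 : i.1 + i.2 = l := by simpa using hi
    have h2 : i.1 ≠ 0 := fun h3 => hne (by ext <;> simp <;> omega)
    rw [h.cst i.1 h2 c hc, zero_mul]

/-- The elements with a `p`-power in `F`. -/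
def Pf (p : ℕ) (F : IntermediateField k Ω) (τ : Ω) : Prop := ∃ M : ℕ, τ ^ p ^ M ∈ F

section Pf

variable {p : ℕ} [hp : Fact p.Prime] [CharP Ω p] {τ τ' : Ω}

omit hp [CharP Ω p] in
theorem Pf.of_mem (h : τ ∈ F) : Pf p F τ := ⟨0, by rwa [pow_zero, pow_one]⟩

omit hp [CharP Ω p] in
theorem Pf.up (M : ℕ) (h : τ ^ p ^ M ∈ F) {N : ℕ} (hN : M ≤ N) : τ ^ p ^ N ∈ F := by
  obtain ⟨m, rfl⟩ := Nat.exists_eq_add_of_le hN
  rw [pow_add, pow_mul]
  exact pow_mem h _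

theorem Pf.sub (h : Pf p F τ) (h' : Pf p F τ') : Pf p F (τ - τ') := by
  obtain ⟨M, h1⟩ := h
  obtain ⟨M', h2⟩ := h'
  refine ⟨max M M', ?_⟩
  rw [sub_pow_char_pow]
  exact sub_mem (Pf.up M h1 (le_max_left _ _)) (Pf.up M' h2 (le_max_right _ _))

theorem Pf.add (h : Pf p F τ) (h' : Pf p F τ') : Pf p F (τ + τ') := by
  obtain ⟨M, h1⟩ := h
  obtain ⟨M', h2⟩ := h'
  refine ⟨max M M', ?_⟩
  rw [add_pow_char_pow]
  exact add_mem (Pf.up M h1 (le_max_left _ _)) (Pf.up M' h2 (le_max_right _ _))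

omit hp [CharP Ω p] in
theorem Pf.mul (h : Pf p F τ) (h' : Pf p F τ') : Pf p F (τ * τ') := by
  obtain ⟨M, h1⟩ := h
  obtain ⟨M', h2⟩ := h'
  refine ⟨max M M', ?_⟩
  rw [mul_pow]
  exact mul_mem (Pf.up M h1 (le_max_left _ _)) (Pf.up M' h2 (le_max_right _ _))

omit hp [CharP Ω p] in
theorem Pf.pow (h : Pf p F τ) (n : ℕ) : Pf p F (τ ^ n) := by
  obtain ⟨M, h1⟩ := h
  refine ⟨M, ?_⟩
  rw [← pow_mul, mul_comm, pow_mul]
  exact pow_mem h1 n

theorem Pf.sum {ι : Type*} (S : Finset ι) (f : ι → Ω) (h : ∀ i ∈ S, Pf p F (f i)) :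
    Pf p F (∑ i ∈ S, f i) := by
  classical
  induction S using Finset.induction_on with
  | empty =>
    rw [sum_empty]
    exact Pf.of_mem (zero_mem F)
  | insert a S ha ih =>
    rw [sum_insert ha]
    exact (h a (mem_insert_self a S)).add (ih fun i hi => h i (mem_insert_of_mem hi))

omit hp [CharP Ω p] in
theorem Pf.root {j : ℕ} (h : Pf p F (τ ^ p ^ j)) : Pf p F τ := by
  obtain ⟨M, h1⟩ := h
  refine ⟨j + M, ?_⟩
  rwa [pow_add, pow_mul]

omit [CharP Ω p] in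
theorem Pf.alg (h : Pf p F τ) : IsAlgebraic F τ := by
  obtain ⟨M, h1⟩ := h
  exact IsAlgebraic.of_pow (Nat.pow_pos hp.out.pos) (isAlgebraic_algebraMap (⟨_, h1⟩ : F))

end Pf

/-- The value `D j z` is small, up to `c`. -/
def Sm (v : RVal Ω) (F : IntermediateField k Ω) (s σ : ℝ) (D : ℕ → Ω → Ω) (z : Ω) (j : ℕ)
    (c : ℝ) : Prop :=
  TWII.Nr v F s z fun θ => v.Ge (s - j * σ - c) (D j θ)

/-- The value `D j z` is `p`-torsion. -/
def Tor (p : ℕ) (v : RVal Ω) (F : IntermediateField k Ω) (s σ : ℝ) (D : ℕ → Ω → Ω) (z : Ω)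
    (j : ℕ) : Prop :=
  ∃ τ : Ω, Pf p F τ ∧ ∀ ε : ℝ, 0 < ε → TWII.Nr v F s z fun θ => v.Ge (s - j * σ - ε) (D j θ - τ)

/-- The additive value of `D 1` at `z`. -/
structure AddV (p : ℕ) (v : RVal Ω) (W F : IntermediateField k Ω) (s r : ℝ) (D : ℕ → Ω → Ω)
    (z f₀ : Ω) (c : ℕ → Ω) (e : ℕ) : Prop where
  mem : f₀ ∈ F
  cW : ∀ i, c i ∈ W
  cv : ∀ i, c i ≠ 0 → v (c i) + (p ^ i : ℕ) * s = r
  rel : ∀ ε : ℝ, 0 < ε → TWII.Nr v F s z fun θ =>
    v.Ge (r - ε) (D 1 θ - (f₀ + ∑ i ∈ range e, c i * θ ^ p ^ i))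

section

variable {p : ℕ} [hp : Fact p.Prime] [CharP Ω p] {f₀ : Ω} {c : ℕ → Ω} {e : ℕ}

theorem cge (h : AddV p v W F s r D z f₀ c e) (i : ℕ) : v.Ge (r - (p ^ i : ℕ) * s) (c i) :=
  fun h0 => by linarith [h.cv i h0]

/-- **The relations.** -/
theorem AddV.rel_l (h : AddV p v W F s r D z f₀ c e) (hd : Dir v W F σ D) (hWF : W ≤ F) (l : ℕ)
    {ε : ℝ} (hε : 0 < ε) : TWII.Nr v F s z fun θ =>
      v.Ge (r - l * σ - ε) (((l + 1 : ℕ) : Ω) * D (l + 1) θ - (D l f₀ +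
        ∑ i ∈ range e, c i * (if p ^ i ∣ l then D (l / p ^ i) θ ^ p ^ i else 0))) := by
  refine (h.rel ε hε).mono fun θ hθ h1 => ?_
  have hm : ∀ i ∈ range e, c i * θ ^ p ^ i ∈ F := fun i _ =>
    mul_mem (hWF (h.cW i)) (pow_mem hθ _)
  have h2 := hd.norm l _ (sub_mem (hd.mem 1 θ hθ) (add_mem h.mem (sum_mem hm))) _ h1
  rw [hd.toHSd.sub l (hd.mem 1 θ hθ) (add_mem h.mem (sum_mem hm)), hd.comp l θ hθ,
    hd.add l _ h.mem _ (sum_mem hm), hd.toHSd.sum l _ _ hm] at h2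
  have e1 : ∑ i ∈ range e, D l (c i * θ ^ p ^ i) =
      ∑ i ∈ range e, c i * (if p ^ i ∣ l then D (l / p ^ i) θ ^ p ^ i else 0) := by
    refine sum_congr rfl fun i _ => ?_
    rw [hd.smul hWF (h.cW i) (pow_mem hθ _)]
    congr 1
    split_ifs with h3
    · obtain ⟨m, rfl⟩ := h3
      rw [Nat.mul_div_cancel_left _ (Nat.pow_pos hp.out.pos), hd.toHSd.pow_mul p hθ]
    · rw [hd.toHSd.pow_zero p hθ i l h3]
  rw [e1] at h2
  exact h2.mono (by linarith)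

end

end Pool.Agent.TWM0
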