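import Pool.Agent.Lib.TWM0.C

/-!
# TANK W, the coefficients of a critical element, part C2: the values of high order are small

Under `AddV` (`D 1 z` is additive in `z`), `D j z` is small for large `j`.
-/

set_option autoImplicit false

open Polynomial Finset

namespace Pool.Agent.TWM0

open Pool.Agent.H15JM (RVal)
open Pool.Agent.TWM
open Pool.Agent.TWLM (HSd Oi exists_ge_of_gt)
open Pool.Agent.TWII (LP PG)

universe u

variable {k Ω : Type u} [Field k] [Field Ω] [Algebra k Ω] {v : RVal Ω}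
  {W F : IntermediateField k Ω} {D : ℕ → Ω → Ω} {s σ r : ℝ} {z : Ω}

/-- Divide by a coefficient. -/
theorem ge_of_mul {a x : Ω} {b : ℝ} (ha : a ≠ 0) (h : v.Ge b (a * x)) : v.Ge (b - v a) x := by
  intro hx
  have h1 := h (mul_ne_zero ha hx)
  rw [v.map_mul ha hx] at h1
  linarith

theorem ge_of_pow {x : Ω} {b : ℝ} {n : ℕ} (hn : n ≠ 0) (h : v.Ge (n * b) (x ^ n)) : v.Ge b x := by
  intro hx
  have h1 := h (pow_ne_zero n hx)
  rw [v.map_pow hx] at h1
  have h2 : (0 : ℝ) < n := by exact_mod_cast Nat.pos_of_ne_zero hn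
  exact le_of_mul_le_mul_left h1 h2

variable {p : ℕ} [hp : Fact p.Prime] [CharP Ω p] {f₀ : Ω} {c : ℕ → Ω} {e : ℕ}

theorem Sm.mono {j : ℕ} {a b : ℝ} (h : Sm v F s σ D z j a) (hab : a ≤ b) : Sm v F s σ D z j b :=
  TWII.Nr.mono h fun _ _ h1 => h1.mono (by linarith)

/-- The first bound. -/
theorem exists_sm [IsAlgClosed Ω] (hz : TL v F z s) (hd : Dir v W F σ D) :
    ∃ a : ℝ, 0 < a ∧ ∀ j, Sm v F s σ D z j a := by
  obtain ⟨δ, hδ, h1⟩ : TWII.Nr v F s z fun θ => v.Ge (v z) θ := by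
    have h2 := near_ge (b := v z) hz (f := X) X_mem_PI (by rw [eval_X]; exact RVal.ge_self z)
    simpa only [eval_X] using h2
  refine ⟨max 1 (s - v z), lt_max_of_lt_left one_pos, fun j => ⟨δ, hδ, fun θ hθ h2 => ?_⟩⟩
  exact (hd.norm j θ hθ _ (h1 θ hθ h2)).mono (by linarith [le_max_right 1 (s - v z)])

/-- **The shrinking**, order of inseparability at least one. -/
theorem AddV.shrink (h : AddV p v W F s r D z f₀ c e) (hd : Dir v W F σ D) (hWF : W ≤ F)
    (hr : r = s - σ) {J : ℕ} (hJ : J ≠ 0) (hJe : J < e) (hcJ : c J ≠ 0)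
    (htop : ∀ i, i < e → J < i → c i = 0) {J₁ : ℕ}
    (hf₀ : ∀ l, J₁ ≤ l → v.Ge (r - l * σ) (D l f₀)) {a : ℝ} (ha : 0 < a)
    (hsm : ∀ j, J₁ ≤ j → Sm v F s σ D z j a) {j : ℕ} (hj : J₁ ≤ j) :
    Sm v F s σ D z j (a / p) := by
  have hp0 : 0 < p := hp.out.pos
  have hp0' : (0 : ℝ) < p := by exact_mod_cast hp0
  obtain ⟨J', rfl⟩ : ∃ J', J = J' + 1 := ⟨J - 1, by omega⟩
  set Q := p ^ (J' + 1) with hQ
  have hQ0 : 0 < Q := Nat.pow_pos hp0
  have hQj : J₁ ≤ Q * j := hj.trans (Nat.le_mul_of_pos_left j hQ0)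
  have hq : ∀ i, i < J' + 1 → (p ^ i : ℝ) ≤ p ^ J' := fun i hi =>
    pow_le_pow_right₀ (by exact_mod_cast hp0) (by omega)
  have hq1 : (1 : ℝ) ≤ p ^ J' := one_le_pow₀ (by exact_mod_cast hp0)
  -- the values which occur
  have hS : TWII.Nr v F s z fun θ => ∀ i ∈ range (J' + 1),
      v.Ge (s - (Q * j / p ^ i : ℕ) * σ - a) (D (Q * j / p ^ i) θ) := by
    refine TWII.Nr.all _ fun i hi => hsm _ ?_
    have h1 : p ^ i ∣ Q := pow_dvd_pow p (by have := mem_range.1 hi; omega)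
    obtain ⟨m, hm⟩ := h1
    rw [hm, mul_assoc, Nat.mul_div_cancel_left _ (Nat.pow_pos hp0)]
    refine hj.trans (Nat.le_mul_of_pos_left j ?_)
    rcases Nat.eq_zero_or_pos m with rfl | h2
    · rw [mul_zero] at hm
      omega
    · exact h2
  refine (((h.rel_l hd hWF (Q * j) ha).and (hsm (Q * j + 1) (by omega))).and hS).mono
    fun θ hθ h1 => ?_
  obtain ⟨⟨h2, h3⟩, h4⟩ := h1
  -- isolate the top
  have e1 : ∑ i ∈ range e, c i * (if p ^ i ∣ Q * j then D (Q * j / p ^ i) θ ^ p ^ i else 0) =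
      c (J' + 1) * D j θ ^ Q +
      ∑ i ∈ range (J' + 1), c i * (if p ^ i ∣ Q * j then D (Q * j / p ^ i) θ ^ p ^ i else 0) := by
    have h5 : range (J' + 2) ⊆ range e := range_subset_range.2 (by omega)
    rw [← sum_subset h5, sum_range_succ, add_comm]
    · congr 1
      rw [if_pos (dvd_mul_right _ _), Nat.mul_div_cancel_left _ (Nat.pow_pos hp0)]
    · intro i hi hi'
      have h6 := mem_range.1 hi
      have h7 : ¬ i < J' + 2 := fun h8 => hi' (mem_range.2 h8)
      rw [htop i h6 (by omega), zero_mul]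
  rw [e1] at h2
  have h5 : v.Ge (r - (Q * j : ℕ) * σ - p ^ J' * a)
      (∑ i ∈ range (J' + 1), c i * (if p ^ i ∣ Q * j then D (Q * j / p ^ i) θ ^ p ^ i else 0)) := by
    refine RVal.Ge.sum _ _ fun i hi => ?_
    have hi' := mem_range.1 hi
    have h6 : p ^ i ∣ Q * j := (pow_dvd_pow p (by omega)).mul_right j
    rw [if_pos h6]
    refine ((cge h i).mul (ge_pow (h4 i hi) (p ^ i))).mono ?_
    obtain ⟨m, hm⟩ := h6
    rw [hm, Nat.mul_div_cancel_left _ (Nat.pow_pos hp0)]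
    have h7 := mul_le_mul_of_nonneg_right (hq i hi') ha.le
    push_cast
    nlinarith
  have h6 : v.Ge (r - (Q * j : ℕ) * σ - p ^ J' * a)
      (((Q * j + 1 : ℕ) : Ω) * D (Q * j + 1) θ) := by
    refine ((ge_natCast v _).mul h3).mono ?_
    have h7 := mul_le_mul_of_nonneg_right hq1 ha.le
    rw [hr]
    push_cast
    nlinarith
  have h7 : v.Ge (r - (Q * j : ℕ) * σ - p ^ J' * a) (D (Q * j) f₀) :=
    (hf₀ _ hQj).mono (by
      have h8 : 0 ≤ (p : ℝ) ^ J' * a := by positivity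
      linarith)
  have h8 : v.Ge (r - (Q * j : ℕ) * σ - p ^ J' * a) (c (J' + 1) * D j θ ^ Q) := by
    have e2 : c (J' + 1) * D j θ ^ Q = ((Q * j + 1 : ℕ) : Ω) * D (Q * j + 1) θ - D (Q * j) f₀ -
        (∑ i ∈ range (J' + 1), c i *
          (if p ^ i ∣ Q * j then D (Q * j / p ^ i) θ ^ p ^ i else 0)) -
        (((Q * j + 1 : ℕ) : Ω) * D (Q * j + 1) θ - (D (Q * j) f₀ +
          (c (J' + 1) * D j θ ^ Q + ∑ i ∈ range (J' + 1), c i *
            (if p ^ i ∣ Q * j then D (Q * j / p ^ i) θ ^ p ^ i else 0)))) := by ring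
    rw [e2]
    refine ((h6.sub h7).sub h5).sub (h2.mono ?_)
    have h9 := mul_le_mul_of_nonneg_right hq1 ha.le
    linarith
  have h9 := ge_of_mul hcJ h8
  have h10 := h.cv _ hcJ
  refine ge_of_pow hQ0.ne' (h9.mono (le_of_eq ?_))
  have e3 : (Q : ℝ) = p ^ J' * p := by rw [hQ]; push_cast; rw [pow_succ]
  rw [← hQ] at h10
  have e4 : v (c (J' + 1)) = r - Q * s := by linarith
  rw [e4]
  push_cast
  rw [e3]
  field_simp
  ring

/-- **The values of high order are small.** -/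
theorem AddV.small [IsAlgClosed Ω] (h : AddV p v W F s r D z f₀ c e) (hz : TL v F z s)
    (hd : Dir v W F σ D) (hWF : W ≤ F) (hr : r = s - σ) {J : ℕ} (hJe : J < e) (hcJ : c J ≠ 0)
    (htop : ∀ i, i < e → J < i → c i = 0) :
    ∃ J₁ : ℕ, ∀ j, J₁ ≤ j → ∀ ε : ℝ, 0 < ε → Sm v F s σ D z j ε := by
  obtain ⟨J₁, hf₀⟩ := hd.oi f₀ h.mem r
  refine ⟨J₁, ?_⟩
  have hp0 : 0 < p := hp.out.pos
  have hp1 : (1 : ℝ) < p := by exact_mod_cast hp.out.one_lt
  rcases Nat.eq_zero_or_pos J with rfl | hJ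
  · -- order zero
    have hone : ∀ l, J₁ ≤ l → ∀ ε : ℝ, 0 < ε → TWII.Nr v F s z fun θ =>
        v.Ge (r - l * σ - ε) (((l + 1 : ℕ) : Ω) * D (l + 1) θ - c 0 * D l θ) := by
      intro l hl ε hε
      refine (h.rel_l hd hWF l hε).mono fun θ _ h1 => ?_
      have e1 : ∑ i ∈ range e, c i * (if p ^ i ∣ l then D (l / p ^ i) θ ^ p ^ i else 0) =
          c 0 * D l θ := by
        rw [sum_eq_single_of_mem 0 (mem_range.2 hJe)]
        · simp
        · intro i hi hi0
          rw [htop i (mem_range.1 hi) (Nat.pos_of_ne_zero hi0), zero_mul]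
      rw [e1] at h1
      have e2 : ((l + 1 : ℕ) : Ω) * D (l + 1) θ - c 0 * D l θ =
          (((l + 1 : ℕ) : Ω) * D (l + 1) θ - (D l f₀ + c 0 * D l θ)) + D l f₀ := by ring
      rw [e2]
      exact h1.add ((hf₀ l hl).mono (by linarith))
    have hc0 : v (c 0) = r - s := by
      have h1 := h.cv 0 hcJ
      rw [pow_zero, Nat.cast_one, one_mul] at h1
      linarith
    have key : ∀ t l : ℕ, J₁ ≤ l → p ∣ l + 1 + t → ∀ ε : ℝ, 0 < ε → Sm v F s σ D z l ε := by
      intro t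
      induction t with
      | zero =>
        intro l hl hpl ε hε
        refine (hone l hl ε hε).mono fun θ _ h1 => ?_
        rw [add_zero] at hpl
        rw [(CharP.cast_eq_zero_iff Ω p _).2 hpl, zero_mul, zero_sub] at h1
        have h2 := ge_of_mul hcJ (h1.neg.mono (le_refl _) |> fun h3 => by rwa [neg_neg] at h3)
        rw [hc0] at h2
        exact h2.mono (by linarith)
      | succ t ih =>
        intro l hl hpl ε hε
        refine ((hone l hl ε hε).and (ih (l + 1) (by omega) (by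
          have e1 : l + 1 + 1 + t = l + 1 + (t + 1) := by omega
          rwa [e1]) ε hε)).mono fun θ _ h1 => ?_
        obtain ⟨h1, h3⟩ := h1
        have h4 : v.Ge (r - l * σ - ε) (((l + 1 : ℕ) : Ω) * D (l + 1) θ) := by
          refine ((ge_natCast v _).mul h3).mono ?_
          rw [hr]
          push_cast
          linarith
        have h5 : v.Ge (r - l * σ - ε) (c 0 * D l θ) := by
          have e2 : c 0 * D l θ = ((l + 1 : ℕ) : Ω) * D (l + 1) θ -
              (((l + 1 : ℕ) : Ω) * D (l + 1) θ - c 0 * D l θ) := by ring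
          rw [e2]
          exact h4.sub h1
        have h6 := ge_of_mul hcJ h5
        rw [hc0] at h6
        exact h6.mono (by linarith)
    intro j hj ε hε
    have h1 : ∃ t, p ∣ j + 1 + t := by
      refine ⟨p * (j + 1) - (j + 1), ?_⟩
      have h2 : j + 1 ≤ p * (j + 1) := Nat.le_mul_of_pos_left _ hp0
      rw [Nat.add_sub_cancel' h2]
      exact dvd_mul_right _ _
    obtain ⟨t, ht⟩ := h1
    exact key t j hj ht ε hε
  · obtain ⟨a, ha, h1⟩ := exists_sm hz hd
    have h2 : ∀ n : ℕ, ∀ j, J₁ ≤ j → Sm v F s σ D z j (a / p ^ n) := by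
      intro n
      induction n with
      | zero =>
        intro j _
        rw [pow_zero, div_one]
        exact h1 j
      | succ n ih =>
        intro j hj
        have h3 := h.shrink hd hWF hr hJ.ne' hJe hcJ htop hf₀ (a := a / p ^ n)
          (div_pos ha (by positivity)) ih hj
        rwa [div_div, ← pow_succ] at h3
    intro j hj ε hε
    obtain ⟨n, hn⟩ := exists_pow_lt_of_lt_one (div_pos hε ha) (inv_lt_one_of_one_lt₀ hp1)
    refine (h2 n j hj).mono ?_
    have h3 : a * ((p : ℝ)⁻¹) ^ n < ε := by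
      rw [lt_div_iff₀ ha] at hn
      linarith
    rw [inv_pow] at h3
    rw [div_eq_mul_inv]
    exact h3.le

end Pool.Agent.TWM0
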