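import Pool.Agent.Lib.TWM0.C2

/-!
# TANK W, the coefficients of a critical element, part C3: the value of a derivation is not additive

`AddV.false`: `D 1 z` is not `f₀ + R(z)`, `R ≠ 0` additive over `W`: the last value `D L z` which is
not `p`-torsion would give another one.
-/

set_option autoImplicit false

open Polynomial Finset

namespace Pool.Agent.TWM0

open Pool.Agent.H15JM (RVal)
open Pool.Agent.TWM
open Pool.Agent.TWLM (HSd Oi exists_ge_of_gt)
open Pool.Agent.TWII (LP PG)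

universe u

variable {k Ω : Type u} [Field k] [Field Ω] [Algebra k Ω] {v : RVal Ω}
  {W F : IntermediateField k Ω} {D : ℕ → Ω → Ω} {s σ r : ℝ} {z : Ω}

variable {p : ℕ} [hp : Fact p.Prime] [CharP Ω p] {f₀ : Ω} {c : ℕ → Ω} {e : ℕ}

omit hp [CharP Ω p] in
theorem Tor.of_sm {j : ℕ} (h : ∀ ε : ℝ, 0 < ε → Sm v F s σ D z j ε) : Tor p v F s σ D z j :=
  ⟨0, Pf.of_mem (zero_mem F), fun ε hε => TWII.Nr.mono (h ε hε) fun θ _ h1 => by rwa [sub_zero]⟩

theorem not_tor_zero (hz : TL v F z s) (hd : Dir v W F σ D) : ¬ Tor p v F s σ D z 0 := by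
  rintro ⟨τ, hτ, h1⟩
  obtain ⟨h2, h3⟩ := hz.far τ hτ.alg
  obtain ⟨θ, hθ, h4, h5⟩ := ((h1 ((s - v (z - τ)) / 2) (by linarith)).and
    (TWII.Nr.near (v := v) (F := F) (ρ := s) (u := z) (ε := (s - v (z - τ)) / 2)
      (by linarith))).exists hz.lim
  rw [hd.c0 θ hθ, Nat.cast_zero, zero_mul, sub_zero] at h4
  have e : z - τ = (z - θ) + (θ - τ) := by ring
  have h6 := (h5.add h4)
  rw [← e] at h6
  linarith [h6 (sub_ne_zero.2 h2)]

/-- **The value of a derivation is not additive.** -/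
theorem AddV.false [IsAlgClosed Ω] (h : AddV p v W F s r D z f₀ c e) (hz : TL v F z s)
    (hd : Dir v W F σ D) (hWF : W ≤ F) (hr : r = s - σ) (hne : ∃ i, i < e ∧ c i ≠ 0) : False := by
  classical
  have hp0 : 0 < p := hp.out.pos
  -- the top
  obtain ⟨J, ⟨hJe, hcJ⟩, hmax⟩ : ∃ J, (J < e ∧ c J ≠ 0) ∧ ∀ i, J < i → ¬ (i < e ∧ c i ≠ 0) := by
    obtain ⟨i, hi⟩ := hne
    refine ⟨Nat.findGreatest (fun i => i < e ∧ c i ≠ 0) e,
      Nat.findGreatest_spec (P := fun i => i < e ∧ c i ≠ 0) hi.1.le hi, fun i' h1 h2 => ?_⟩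
    have h3 := Nat.le_findGreatest (P := fun i => i < e ∧ c i ≠ 0) h2.1.le h2
    omega
  have htop : ∀ i, i < e → J < i → c i = 0 := fun i hi hJi => by
    by_contra h1
    exact hmax i hJi ⟨hi, h1⟩
  obtain ⟨J₁, hsm⟩ := h.small hz hd hWF hr hJe hcJ htop
  -- the last value which is not torsion
  have h0 := not_tor_zero (p := p) hz hd
  have hJ₁ : ∀ j, J₁ ≤ j → Tor p v F s σ D z j := fun j hj => Tor.of_sm (hsm j hj)
  obtain ⟨L, hL, hLmax⟩ : ∃ L, ¬ Tor p v F s σ D z L ∧ ∀ j, L < j → Tor p v F s σ D z j := by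
    refine ⟨Nat.findGreatest (fun j => ¬ Tor p v F s σ D z j) J₁,
      Nat.findGreatest_spec (P := fun j => ¬ Tor p v F s σ D z j) (Nat.zero_le _) h0,
      fun j hj => ?_⟩
    by_contra h1
    rcases le_or_gt J₁ j with h2 | h2
    · exact h1 (hJ₁ j h2)
    · have h3 := Nat.le_findGreatest (P := fun j => ¬ Tor p v F s σ D z j) h2.le h1
      omega
  set Q := p ^ J with hQ
  have hQ0 : 0 < Q := Nat.pow_pos hp0
  by_cases hcase : L = 0 ∧ J ≠ 0
  · -- `L = 0`: `R(z)` would be torsion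
    obtain ⟨rfl, hJ⟩ := hcase
    obtain ⟨τ, hτ, h1⟩ := hLmax 1 one_pos
    have hcF : ∀ i, c i ∈ TWM.algc F := fun i => le_algc F (hWF (h.cW i))
    have hal : IsAlgebraic F (τ - f₀) := (hτ.sub (Pf.of_mem h.mem)).alg
    obtain ⟨h2, h3⟩ := hz.germ_far p (e := e) hcF hJe hcJ hal
    rw [h.cv J hcJ] at h3
    set x := (∑ i ∈ range e, c i * z ^ p ^ i) - (τ - f₀) with hx
    have hx0 : x ≠ 0 := sub_ne_zero.2 h2
    have hpos : (0 : ℝ) < r - v x := by linarith
    -- the error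
    have hpe : (0 : ℝ) < p ^ e := by
      have : (0 : ℝ) < p := by exact_mod_cast hp0
      positivity
    obtain ⟨θ, hθ, ⟨h4, h5⟩, h6⟩ := (((h1 ((r - v x) / 2) (half_pos hpos)).and
      (h.rel ((r - v x) / 2) (half_pos hpos))).and
      (TWII.Nr.near (v := v) (F := F) (ρ := s) (u := z) (ε := (r - v x) / 2 / p ^ e)
        (div_pos (half_pos hpos) hpe))).exists hz.lim
    have h7 : v.Ge (r - (r - v x) / 2) (∑ i ∈ range e, c i * (z - θ) ^ p ^ i) := by
      refine RVal.Ge.sum _ _ fun i hi => ?_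
      refine ((cge h i).mul (ge_pow h6 (p ^ i))).mono ?_
      have h8 : ((p ^ i : ℕ) : ℝ) * ((r - v x) / 2 / p ^ e) ≤ (r - v x) / 2 := by
        rw [mul_div_assoc', div_le_iff₀ hpe, mul_comm]
        refine mul_le_mul_of_nonneg_left ?_ (half_pos hpos).le
        push_cast
        exact pow_le_pow_right₀ (by exact_mod_cast hp0) (mem_range.1 hi).le
      have e1 : r - ((p ^ i : ℕ) : ℝ) * s + ((p ^ i : ℕ) : ℝ) * (s - (r - v x) / 2 / p ^ e) =
          r - ((p ^ i : ℕ) : ℝ) * ((r - v x) / 2 / p ^ e) := by ring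
      rw [e1]
      linarith
    have e2 : x = (∑ i ∈ range e, c i * (z - θ) ^ p ^ i) + (D 1 θ - τ) -
        (D 1 θ - (f₀ + ∑ i ∈ range e, c i * θ ^ p ^ i)) := by
      have e3 : ∑ i ∈ range e, c i * (z - θ) ^ p ^ i =
          ∑ i ∈ range e, c i * z ^ p ^ i - ∑ i ∈ range e, c i * θ ^ p ^ i := by
        rw [← sum_sub_distrib]
        refine sum_congr rfl fun i _ => ?_
        rw [sub_pow_char_pow]
        ring
      rw [hx, e3]
      ring
    have h8 : v.Ge (r - (r - v x) / 2) x := by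
      nth_rewrite 2 [e2]
      refine (h7.add (h4.mono ?_)).sub h5
      rw [Nat.cast_one, one_mul, hr]
    linarith [h8 hx0]
  · -- the relation of order `Q L`
    apply hL
    set l := Q * L with hl
    have hlt : ∀ i, i < J → L < l / p ^ i := by
      intro i hi
      have hJ : J ≠ 0 := by omega
      have hL0 : 0 < L := by
        rcases Nat.eq_zero_or_pos L with h1 | h1
        · exact absurd ⟨h1, hJ⟩ hcase
        · exact h1
      obtain ⟨m, hm⟩ : ∃ m, J = i + (m + 1) := ⟨J - i - 1, by omega⟩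
      rw [hl, hQ, hm, pow_add, mul_assoc, Nat.mul_div_cancel_left _ (Nat.pow_pos hp0)]
      have h1 : 1 < p ^ (m + 1) := Nat.one_lt_pow (by omega) hp.out.one_lt
      calc L = 1 * L := (one_mul L).symm
        _ < p ^ (m + 1) * L := Nat.mul_lt_mul_of_pos_right h1 hL0
    have hlL : L < l + 1 := by
      have h1 : L ≤ Q * L := Nat.le_mul_of_pos_left L hQ0
      omega
    obtain ⟨τ₁, hτ₁, h1⟩ := hLmax (l + 1) hlL
    have h2 : ∀ i, i < J → Tor p v F s σ D z (l / p ^ i) := fun i hi => hLmax _ (hlt i hi)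
    choose! τ hτ h3 using h2
    set T : Ω := ((l + 1 : ℕ) : Ω) * τ₁ - D l f₀ - ∑ i ∈ range J, c i * τ i ^ p ^ i with hT
    have hTp : Pf p F T := by
      refine (((Pf.of_mem (natCast_mem F _)).mul hτ₁).sub (Pf.of_mem (hd.mem l f₀ h.mem))).sub
        (Pf.sum _ _ fun i hi => (Pf.of_mem (hWF (h.cW i))).mul ((hτ i (mem_range.1 hi)).pow _))
    -- the root
    obtain ⟨τ', hτ'⟩ := IsAlgClosed.exists_pow_nat_eq (T / c J) hQ0
    have hτp : Pf p F τ' := by
      refine Pf.root (j := J) ?_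
      rw [← hQ, hτ', div_eq_mul_inv]
      exact hTp.mul (Pf.of_mem (inv_mem (hWF (h.cW J))))
    refine ⟨τ', hτp, fun ε hε => ?_⟩
    have hall : TWII.Nr v F s z fun θ => ∀ i ∈ range J,
        v.Ge (s - (l / p ^ i : ℕ) * σ - ε) (D (l / p ^ i) θ - τ i) :=
      TWII.Nr.all _ fun i hi => h3 i (mem_range.1 hi) ε hε
    refine (((h.rel_l hd hWF l hε).and (h1 ε hε)).and hall).mono fun θ hθ h4 => ?_
    obtain ⟨⟨h4, h5⟩, h6⟩ := h4
    have e1 : ∑ i ∈ range e, c i * (if p ^ i ∣ l then D (l / p ^ i) θ ^ p ^ i else 0) =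
        c J * D L θ ^ Q + ∑ i ∈ range J, c i * D (l / p ^ i) θ ^ p ^ i := by
      have h7 : range (J + 1) ⊆ range e := range_subset_range.2 (by omega)
      rw [← sum_subset h7, sum_range_succ, add_comm]
      · congr 1
        · rw [if_pos (dvd_mul_right _ _), hl, Nat.mul_div_cancel_left _ (Nat.pow_pos hp0)]
        · refine sum_congr rfl fun i hi => ?_
          rw [if_pos ((pow_dvd_pow p (mem_range.1 hi).le).mul_right L)]
      · intro i hi hi'
        have h8 := mem_range.1 hi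
        have h9 : ¬ i < J + 1 := fun h10 => hi' (mem_range.2 h10)
        rw [htop i h8 (by omega), zero_mul]
    rw [e1] at h4
    have hQ1 : (1 : ℝ) ≤ Q := by exact_mod_cast hQ0
    have h7 : v.Ge (r - l * σ - Q * ε) (((l + 1 : ℕ) : Ω) * (D (l + 1) θ - τ₁)) := by
      refine ((ge_natCast v _).mul h5).mono ?_
      rw [hr]
      push_cast
      nlinarith
    have h8 : v.Ge (r - l * σ - Q * ε)
        (∑ i ∈ range J, c i * (D (l / p ^ i) θ - τ i) ^ p ^ i) := by
      refine RVal.Ge.sum _ _ fun i hi => ?_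
      refine ((cge h i).mul (ge_pow (h6 i hi) (p ^ i))).mono ?_
      obtain ⟨m, hm⟩ : p ^ i ∣ l := (pow_dvd_pow p (mem_range.1 hi).le).mul_right L
      rw [hm, Nat.mul_div_cancel_left _ (Nat.pow_pos hp0)]
      have h9 : ((p ^ i : ℕ) : ℝ) ≤ Q := by
        rw [hQ]
        exact_mod_cast Nat.pow_le_pow_right hp0 (mem_range.1 hi).le
      have h10 := mul_le_mul_of_nonneg_right h9 hε.le
      push_cast at h10 ⊢
      linarith
    have h9 : v.Ge (r - l * σ - Q * ε) (c J * (D L θ - τ') ^ Q) := by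
      have e2 : c J * (D L θ - τ') ^ Q = ((l + 1 : ℕ) : Ω) * (D (l + 1) θ - τ₁) -
          (∑ i ∈ range J, c i * (D (l / p ^ i) θ - τ i) ^ p ^ i) -
          (((l + 1 : ℕ) : Ω) * D (l + 1) θ - (D l f₀ +
            (c J * D L θ ^ Q + ∑ i ∈ range J, c i * D (l / p ^ i) θ ^ p ^ i))) := by
        have e3 : ∑ i ∈ range J, c i * (D (l / p ^ i) θ - τ i) ^ p ^ i =
            ∑ i ∈ range J, c i * D (l / p ^ i) θ ^ p ^ i - ∑ i ∈ range J, c i * τ i ^ p ^ i := by
          rw [← sum_sub_distrib]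
          refine sum_congr rfl fun i _ => ?_
          rw [sub_pow_char_pow]
          ring
        have e4 : c J * (D L θ - τ') ^ Q = c J * D L θ ^ Q - T := by
          rw [hQ, sub_pow_char_pow, ← hQ, hτ', mul_sub, mul_div_cancel₀ _ hcJ]
        rw [e4, e3, hT]
        ring
      rw [e2]
      exact (h7.sub h8).sub (h4.mono (by nlinarith))
    have h10 := ge_of_mul hcJ h9
    have h11 := h.cv J hcJ
    refine ge_of_pow hQ0.ne' (h10.mono (le_of_eq ?_))
    rw [← hQ] at h11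
    have e4 : v (c J) = r - Q * s := by linarith
    rw [e4, hl]
    push_cast
    ring

end Pool.Agent.TWM0
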