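import Pool.Agent.Lib.TWM0.C3

/-!
# TANK W, the coefficients of a critical element, part D: the first derivatives

* `Dir.attained`: if the derivative in `z` of a critical element `f(z)` is not strict, then the value
  at `z` of the derivation `D 1` is attained;
* `Dir.jets_sd`: the proper jets of a critical element have strict derivatives;
* `null_poly`, `null_DH`: the derivations of a null element are strict.
-/

set_option autoImplicit false

open Polynomial Finset

namespace Pool.Agent.TWM0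

open Pool.Agent.H15JM (RVal)
open Pool.Agent.TWM
open Pool.Agent.TWLM (HSd Oi exists_ge_of_gt)
open Pool.Agent.TWII (LP PG)

universe u

variable {k Ω : Type u} [Field k] [Field Ω] [Algebra k Ω] {v : RVal Ω}
  {W F : IntermediateField k Ω} {D : ℕ → Ω → Ω} {s σ ν : ℝ} {z : Ω} {f : Polynomial Ω}

/-- The leading terms of `F` are in `W`. -/
def Rep (v : RVal Ω) (W F : IntermediateField k Ω) : Prop :=
  ∀ c ∈ F, c ≠ 0 → ∃ m ∈ W, Gt v (v c) (c - m)

theorem eval_mem_cadj (hf : f ∈ PI F) : f.eval z ∈ cadj v F z :=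
  TWM.le_clI _ (TWM.eval_mem_adj hf z)

variable (p : ℕ) [hp : Fact p.Prime] [CharP Ω p]

/-- **The value of the derivation is attained.** -/
theorem Dir.attained [IsAlgClosed Ω] (hz : TL v F z s) (hd : Dir v W F σ D) (hWF : W ≤ F)
    (hrep : Rep v W F) (hf : f ∈ PI F) (hlp : LP p v (cadj v F z) ν (f.eval z))
    (hns : ¬ Gt v (ν - s) ((derivative f).eval z)) :
    ∃ h₀ ∈ F, ∀ ε : ℝ, 0 < ε → Vl v F s z (D 1) (s - σ - ε) h₀ := by
  have hp0 : 0 < p := hp.out.pos
  have hp1 : ¬ p ∣ 1 := fun h5 => hp.out.one_lt.not_ge (Nat.le_of_dvd one_pos h5)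
  have h1 := LP.jet_prime p hz hf hlp hp1
  rw [taylor_coeff, hasseDeriv_one, Nat.cast_one, one_mul] at h1
  set β := (derivative f).eval z with hβ
  set α := (dp (D 1) f).eval z with hα
  have hβ0 : β ≠ 0 := fun h0 => hns (by rw [h0]; exact Gt.zero)
  have hvβ : v β = ν - s := by
    refine le_antisymm ?_ (h1 hβ0)
    by_contra h2
    exact hns fun _ => not_le.1 h2
  have hn := hd.nder
  have hαK : α ∈ cadj v F z := eval_mem_cadj (dp_mem hn.toDer hf)
  have hβK : β ∈ cadj v F z := eval_mem_cadj (derivative_mem hf)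
  set g := -α / β with hg
  have hgK : g ∈ cadj v F z := div_mem (neg_mem hαK) hβK
  -- the approximations
  have happ : ∀ ε : ℝ, 0 < ε → ∃ h ∈ F, Vl v F s z (D 1) (s - σ - ε) h ∧
      v.Ge (s - σ - ε) (h - g) := by
    intro ε hε
    obtain ⟨h, hh, h2⟩ := hn.exists_vl hz.lim hε
    refine ⟨h, hh, h2, ?_⟩
    have h3 := crit_ge (b := ν - σ - ε) p hz hn hh hf hlp h2 h1 (by linarith) (by linarith)
    have e : (DH (D 1) h f).eval z = β * (h - g) := by
      rw [DH, eval_add, eval_mul, eval_C, ← hα, ← hβ, hg]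
      field_simp
      ring
    rw [e] at h3
    have h4 := ge_of_mul hβ0 h3
    rw [hvβ] at h4
    exact h4.mono (by linarith)
  have hlim : Lim v F (s - σ) g := fun ε hε => by
    obtain ⟨h, hh, -, h2⟩ := happ ε hε
    exact ⟨h, hh, ge_sub_comm h2⟩
  obtain ⟨f₀, hf₀, e, c, hc, h2⟩ := hz.germ p (M := (W : Set Ω)) (fun a ha h0 => by
    obtain ⟨m, hm, h3⟩ := hrep a ha h0
    exact ⟨m, hm, hWF hm, h3⟩) hgK hlim
  by_cases hne : ∃ i, i < e ∧ c i ≠ 0
  · exfalso
    have hcW : ∀ i, c i ∈ W := fun i => by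
      rcases hc i with h3 | h3
      · rw [h3]
        exact zero_mem W
      · exact h3.1
    have hcv : ∀ i, c i ≠ 0 → v (c i) + (p ^ i : ℕ) * s = s - σ := fun i h0 => by
      rcases hc i with h3 | h3
      · exact absurd h3 h0
      · exact h3.2.2.2
    have hA : AddV p v W F s (s - σ) D z f₀ c e := by
      refine ⟨hf₀, hcW, hcv, fun ε hε => ?_⟩
      obtain ⟨h, hh, h3, h4⟩ := happ ε hε
      have hpe : (0 : ℝ) < p ^ e := by
        have : (0 : ℝ) < p := by exact_mod_cast hp0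
        positivity
      refine (TWII.Nr.and h3 (TWII.Nr.near (v := v) (F := F) (ρ := s) (u := z)
        (ε := ε / p ^ e) (div_pos hε hpe))).mono fun θ hθ h5 => ?_
      obtain ⟨h5, h6⟩ := h5
      have h7 : v.Ge (s - σ - ε) (∑ i ∈ range e, c i * (z - θ) ^ p ^ i) := by
        refine RVal.Ge.sum _ _ fun i hi => ?_
        have h8 : v.Ge (s - σ - (p ^ i : ℕ) * s) (c i) := fun h0 => by linarith [hcv i h0]
        refine (h8.mul (ge_pow h6 (p ^ i))).mono ?_
        have h9 : ((p ^ i : ℕ) : ℝ) * (ε / p ^ e) ≤ ε := by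
          rw [mul_div_assoc', div_le_iff₀ hpe, mul_comm]
          refine mul_le_mul_of_nonneg_left ?_ hε.le
          push_cast
          exact pow_le_pow_right₀ (by exact_mod_cast hp0) (mem_range.1 hi).le
        have e1 : s - σ - ((p ^ i : ℕ) : ℝ) * s + ((p ^ i : ℕ) : ℝ) * (s - ε / p ^ e) =
            s - σ - ((p ^ i : ℕ) : ℝ) * (ε / p ^ e) := by ring
        rw [e1]
        linarith
      have e2 : D 1 θ - (f₀ + ∑ i ∈ range e, c i * θ ^ p ^ i) = (D 1 θ - h) + (h - g) +
          (g - (f₀ + ∑ i ∈ range e, c i * z ^ p ^ i)) +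
          ∑ i ∈ range e, c i * (z - θ) ^ p ^ i := by
        have e3 : ∑ i ∈ range e, c i * (z - θ) ^ p ^ i =
            ∑ i ∈ range e, c i * z ^ p ^ i - ∑ i ∈ range e, c i * θ ^ p ^ i := by
          rw [← sum_sub_distrib]
          refine sum_congr rfl fun i _ => ?_
          rw [sub_pow_char_pow]
          ring
        rw [e3]
        ring
      rw [e2]
      exact ((h5.add h4).add (h2.ge.mono (by linarith))).add h7
    exact hA.false hz hd hWF rfl hne
  · refine ⟨f₀, hf₀, fun ε hε => ?_⟩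
    obtain ⟨h, hh, h3, h4⟩ := happ ε hε
    have e1 : ∑ i ∈ range e, c i * z ^ p ^ i = 0 := sum_eq_zero fun i hi => by
      by_contra h5
      exact hne ⟨i, mem_range.1 hi, fun h6 => h5 (by rw [h6, zero_mul])⟩
    rw [e1, add_zero] at h2
    refine TWII.Nr.mono h3 fun θ _ h5 => ?_
    have e2 : D 1 θ - f₀ = (D 1 θ - h) + (h - g) + (g - f₀) := by ring
    rw [e2]
    exact (h5.add h4).add (h2.ge.mono (by linarith))

/-- **The proper jets of a critical element have strict derivatives.** -/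
theorem Dir.jets_sd [IsAlgClosed Ω] (hz : TL v F z s) (hd : Dir v W F σ D) (hWF : W ≤ F)
    (hrep : Rep v W F) (hf : f ∈ PI F) (hlp : LP p v (cadj v F z) ν (f.eval z)) {l : ℕ}
    (hl : l ≠ 0) : SD v F s z σ (D 1) (ν - l * s) (hasseDeriv l f) :=
  TWM0.jets_sd p hz hd.nder hf hlp (fun hns => hd.attained p hz hWF hrep hf hlp hns) hl

omit hp [CharP Ω p] in
/-- The derivative in `z` of the proper jets is strict. -/
theorem jets_dz [IsAlgClosed Ω] (hz : TL v F z s) (hf : f ∈ PI F) {b : ℝ}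
    (h : v.Ge b ((derivative f).eval z)) {l : ℕ} (hl : l ≠ 0) :
    Gt v (b - l * s) ((derivative (hasseDeriv l f)).eval z) := by
  have h6 := TWII.TL.jet_gt hz (derivative_mem hf) h (l := l) (by omega)
  rwa [taylor_coeff, ← hasse_derivative] at h6

theorem crit_dz [IsAlgClosed Ω] (hz : TL v F z s) (hf : f ∈ PI F)
    (hlp : LP p v (cadj v F z) ν (f.eval z)) : v.Ge (ν - s) ((derivative f).eval z) := by
  have hp1 : ¬ p ∣ 1 := fun h5 => hp.out.one_lt.not_ge (Nat.le_of_dvd one_pos h5)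
  have h1 := LP.jet_prime p hz hf hlp hp1
  rwa [taylor_coeff, hasseDeriv_one, Nat.cast_one, one_mul] at h1

/-- The polynomial form of null elements. -/
theorem null_poly [IsAlgClosed Ω] (hz : TL v F z s) {c : ℝ} (h : PG p v (cadj v F z) c (f.eval z)) :
    ∃ G ∈ PI F, ∃ μ : ℝ, 0 < μ ∧ v.Ge (c + μ) ((f - G ^ p).eval z) := by
  obtain ⟨g, hg, h1⟩ := h
  obtain ⟨μ, hμ, h2⟩ := exists_ge_of_gt h1
  have hp0 : (0 : ℝ) < p := by exact_mod_cast hp.out.pos
  obtain ⟨G, hG, h3⟩ := hz.dense hg ((c + μ) / p)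
  refine ⟨G, hG, μ, hμ, ?_⟩
  have e : (f - G ^ p).eval z = (f.eval z - g ^ p) + (g - G.eval z) ^ p := by
    rw [eval_sub, eval_pow, sub_pow_char]
    ring
  rw [e]
  have h4 := ge_pow h3 p
  rw [mul_div_cancel₀ _ hp0.ne'] at h4
  exact h2.add h4

omit hp [CharP Ω p] in
/-- The derivative of a small element. -/
theorem small_dz [IsAlgClosed Ω] (hz : TL v F z s) (hf : f ∈ PI F) {b : ℝ}
    (h : v.Ge b (f.eval z)) : v.Ge (b - s) ((derivative f).eval z) := by
  have h1 := TWII.TL.jet_ge hz hf h 1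
  rwa [taylor_coeff, hasseDeriv_one, Nat.cast_one, one_mul] at h1

/-- **The derivations of a null element are strict.** -/
theorem null_DH [IsAlgClosed Ω] (hz : TL v F z s) {d : Ω → Ω} (hd : NDer v F σ d) (hf : f ∈ PI F)
    {c : ℝ} (h : PG p v (cadj v F z) c (f.eval z)) :
    ∃ r : ℝ, r < s - σ ∧ ∀ a ∈ F, Vl v F s z d r a → Gt v (c - σ) ((DH d a f).eval z) := by
  obtain ⟨G, hG, μ, hμ, h1⟩ := null_poly p hz h
  refine ⟨s - σ - μ / 2, by linarith, fun a ha hv => ?_⟩
  have h2 := DH_ge (b := c - σ + μ / 2) hz hd ha (sub_mem hf (pow_mem hG p)) hv h1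
    (small_dz hz (sub_mem hf (pow_mem hG p)) h1) (by linarith) (by linarith)
  rw [DH_sub hd.toDer hf (pow_mem hG p), DH_pow_p hd.toDer p hG, sub_zero] at h2
  exact Gt.of_ge h2 (by linarith)

end Pool.Agent.TWM0
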