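import Pool.Agent.Lib.TWM0.D
import Pool.Agent.Lib.TWN1.Base

/-!
# TANK W, the coefficients of a critical element, part E: the derivation over the base

* `EDer`: approximate derivations of `F` over the derivation `D` of `W`, of norm `τ`;
* `Cx`: the situation, with a set `U` of constants;
* `Cx.e_step`: a proper jet of a critical element with strict derivatives, which is `h ^ p X₀` up to
  null elements, is null.
-/

set_option autoImplicit false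

open Polynomial Finset

namespace Pool.Agent.TWM0

open Pool.Agent.H15JM (RVal)
open Pool.Agent.TWM
open Pool.Agent.TWLM (HSd Oi exists_ge_of_gt)
open Pool.Agent.TWII (LP PG)

universe u

variable {k Ω : Type u} [Field k] [Field Ω] [Algebra k Ω] {v : RVal Ω}
  {W F : IntermediateField k Ω} {U : Set Ω} {s ν τ : ℝ} {z : Ω} {ι : Type} [Fintype ι]
  {σ : ι → ℝ} {DD : ι → ℕ → Ω → Ω} {D : Ω → Ω}

/-- The norm of a derivation, up to `ε`. -/
def EN (v : RVal Ω) (F : IntermediateField k Ω) {ι : Type} (σ : ι → ℝ) (DD : ι → ℕ → Ω → Ω)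
    (τ ε : ℝ) (E : Ω → Ω) : Prop :=
  ∀ x ∈ F, ∀ t : ℝ, v.Ge t x → (∀ i, v.Ge (t - σ i + ε) (DD i 1 x)) → v.Ge (t - τ) (E x)

/-- Derivations of `F` over `D`, nearly of norm `τ`. -/
def EDer (v : RVal Ω) (W F : IntermediateField k Ω) {ι : Type} (σ : ι → ℝ) (DD : ι → ℕ → Ω → Ω)
    (D : Ω → Ω) (τ : ℝ) : Prop :=
  ∀ ε : ℝ, 0 < ε → ∃ E : Ω → Ω, Der F E ∧ (∀ x ∈ W, E x = D x) ∧ EN v F σ DD τ ε E

/-- **The bound.** -/
theorem E_ge [IsAlgClosed Ω] (hz : TL v F z s) (hd : ∀ i, Dir v W F (σ i) (DD i)) {E : Ω → Ω}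
    {ε : ℝ} (hε : 0 ≤ ε) (hE : Der F E) (hEn : EN v F σ DD τ ε E) {δ : ℝ} (hδ : 0 < δ) {θ₀ : Ω}
    (hθ₀ : θ₀ ∈ F) (h0 : v.Ge (s - δ) (z - θ₀)) {r : Polynomial Ω} (hr : r ∈ PI F) {h : ι → Ω}
    {ε' : ℝ} (hv : ∀ i, Vl v F s z (DD i 1) (s - σ i - ε') (h i)) {T t t' : ℝ}
    {ti : ι → ℝ} (hh : ∀ i, h i ∈ F) (h1 : v.Ge t (r.eval z))
    (h2 : v.Ge t' ((derivative r).eval z))
    (h3 : ∀ i, v.Ge (ti i) ((DH (DD i 1) (h i) r).eval z)) (hT1 : T ≤ t)
    (hT2 : ∀ i, T - σ i + ε ≤ ti i) (hT3 : T ≤ t' + s - ε - ε') (hT4 : T ≤ t' + s - δ - ε) :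
    v.Ge (T - τ) ((DH E (E θ₀) r).eval z) := by
  have hn := fun i => (hd i).nder
  have hr' := near_ge hz (derivative_mem hr) h2
  refine DH_ge_of hz hE (hE.mem _ hθ₀) hr ?_ ?_
  · have h4 : TWII.Nr v F s z fun θ => ∀ i ∈ (univ : Finset ι),
        v.Ge (ti i) ((DH (DD i 1) (h i) r).eval θ) ∧ v.Ge (s - σ i - ε') (DD i 1 θ - h i) :=
      TWII.Nr.all _ fun i _ => (near_ge hz (DH_mem (hn i).toDer (hh i) hr) (h3 i)).and (hv i)
    refine (((near_ge hz hr h1).and hr').and h4).mono fun θ hθ h5 => ?_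
    obtain ⟨⟨h5, h6⟩, h7⟩ := h5
    refine hEn _ (eval_mem hr hθ) T (h5.mono hT1) fun i => ?_
    obtain ⟨h8, h9⟩ := h7 i (mem_univ i)
    have e := DH_eval (c := h i) (hn i).toDer hr hθ
    have e2 : DD i 1 (r.eval θ) = (DH (DD i 1) (h i) r).eval θ +
        (derivative r).eval θ * (DD i 1 θ - h i) := by rw [e]; ring
    rw [e2]
    refine (h8.mono (hT2 i)).add ((h6.mul h9).mono (by linarith))
  · refine (hr'.and (TWII.Nr.near (v := v) (F := F) (ρ := s) (u := z) hδ)).mono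
      fun θ hθ h5 => ?_
    obtain ⟨h5, h6⟩ := h5
    have h7 : v.Ge (s - δ) (θ - θ₀) := by
      have e : θ - θ₀ = (z - θ₀) - (z - θ) := by ring
      rw [e]
      exact h0.sub h6
    have hm : θ - θ₀ ∈ F := sub_mem hθ hθ₀
    have h8 : v.Ge (s - δ - ε - τ) (E (θ - θ₀)) := by
      refine hEn _ hm (s - δ - ε) (h7.mono (by linarith)) fun i => ?_
      exact ((hn i).norm _ hm _ h7).mono (by linarith)
    rw [hE.sub hθ hθ₀] at h8
    exact (h5.mul h8).mono (by linarith)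

/-- The situation. -/
structure Cx (p : ℕ) (v : RVal Ω) (W F : IntermediateField k Ω) (U : Set Ω) (s : ℝ) (z : Ω)
    {ι : Type} (σ : ι → ℝ) (DD : ι → ℕ → Ω → Ω) (D : Ω → Ω) (τ : ℝ) (X₀ : Ω) (lam : ℝ) :
    Prop where
  tl : TL v F z s
  wf : W ≤ F
  uw : ∀ g ∈ U, g ∈ W
  rep : Rep v W F
  dir : ∀ i, Dir v W F (σ i) (DD i)
  der : EDer v W F σ DD D τ
  x0 : X₀ ∈ W
  xne : D X₀ ≠ 0
  xv : v (D X₀) = lam - τ
  xl : LP p v F lam X₀
  cls : ∀ c : ℝ, ∀ b ∈ F, LP p v F c b → (∀ i, Gt v (c - σ i) (DD i 1 b)) →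
    ∃ h ∈ U, PG p v F c (b - h ^ p * X₀)

theorem exists_pos_le {ι : Type} [Fintype ι] (η : ι → ℝ) (h : ∀ i, 0 < η i) :
    ∃ ε : ℝ, 0 < ε ∧ ∀ i, ε ≤ η i := by
  classical
  have h1 : ∀ S : Finset ι, ∃ ε : ℝ, 0 < ε ∧ ∀ i ∈ S, ε ≤ η i := by
    intro S
    induction S using Finset.induction_on with
    | empty => exact ⟨1, one_pos, fun i hi => absurd hi (notMem_empty i)⟩
    | insert a S ha ih =>
      obtain ⟨ε, hε, h2⟩ := ih
      refine ⟨min ε (η a), lt_min hε (h a), fun i hi => ?_⟩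
      rcases mem_insert.1 hi with rfl | hi
      · exact min_le_right _ _
      · exact (min_le_left _ _).trans (h2 i hi)
  obtain ⟨ε, hε, h2⟩ := h1 univ
  exact ⟨ε, hε, fun i => h2 i (mem_univ i)⟩

variable {p : ℕ} [hp : Fact p.Prime] [CharP Ω p] {X₀ : Ω} {lam c : ℝ} {f : Polynomial Ω}

omit [Fintype ι] [CharP Ω p] in
/-- Multiples of `X₀` which are small for `D` are null. -/
theorem Cx.null (h : Cx p v W F U s z σ DD D τ X₀ lam) {g : Ω} (hg : g ∈ F) (h0 : g ≠ 0)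
    (h1 : c < p * v g + lam) : PG p v F c (g ^ p * X₀) := by
  obtain ⟨a, ha, h2⟩ := h.xl ((p * v g + lam - c) / 2) (by linarith)
  refine ⟨g * a, mul_mem hg ha, ?_⟩
  have e : g ^ p * X₀ - (g * a) ^ p = g ^ p * (X₀ - a ^ p) := by rw [mul_pow]; ring
  rw [e]
  have h3 : v.Ge (p * v g) (g ^ p) := fun _ => by rw [v.map_pow h0]
  exact Gt.of_ge (h3.mul h2) (by linarith)

/-- **The derivation over the base kills the proper jets.** -/
theorem Cx.e_step [IsAlgClosed Ω] (h : Cx p v W F U s z σ DD D τ X₀ lam) (hf : f ∈ PI F)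
    (hlp : LP p v (cadj v F z) c (f.eval z)) (hdz : Gt v (c - s) ((derivative f).eval z))
    (hsd : ∀ i, SD v F s z (σ i) (DD i 1) c f) {l : ℕ} (hl : l ≠ 0) {a g : Ω} (ha : a ∈ F)
    (hg : g ∈ W) (hga : PG p v (cadj v F z) (c - l * s) ((hasseDeriv l f).eval z - a))
    (hah : PG p v F (c - l * s) (a - g ^ p * X₀)) : PG p v F (c - l * s) (g ^ p * X₀) := by
  have hz := h.tl
  have hn := fun i => (h.dir i).nder
  set c' := c - l * s with hc'
  set n : Polynomial Ω := hasseDeriv l f - C a with hndef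
  have hfl : hasseDeriv l f ∈ PI F := hasse_mem_PI hf l
  have hnm : n ∈ PI F := sub_mem hfl (C_mem_PI ha)
  have hn0 : PG p v (cadj v F z) c' (n.eval z) := by rwa [hndef, eval_sub, eval_C]
  obtain ⟨G, hG, μ₁, hμ₁, h1⟩ := null_poly p hz hn0
  obtain ⟨G₀, hG₀, h2⟩ := hah
  obtain ⟨μ₂, hμ₂, h2⟩ := exists_ge_of_gt h2
  obtain ⟨μ₃, hμ₃, h3⟩ := exists_ge_of_gt hdz
  obtain ⟨μ, hμ, hμ1, hμ2, hμ3⟩ : ∃ μ : ℝ, 0 < μ ∧ μ ≤ μ₁ ∧ μ ≤ μ₂ ∧ μ ≤ μ₃ :=
    ⟨min μ₁ (min μ₂ μ₃), lt_min hμ₁ (lt_min hμ₂ hμ₃), min_le_left _ _,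
      (min_le_right _ _).trans (min_le_left _ _), (min_le_right _ _).trans (min_le_right _ _)⟩
  -- the values of the derivations
  have hval : ∀ i, ∃ h₀ ∈ F, Vl v F s z (DD i 1) (s - σ i - μ / 4) h₀ ∧
      Gt v (c - σ i) ((DH (DD i 1) h₀ f).eval z) := fun i =>
    (hsd i).exists_vl hz.lim (hn i) _ (by linarith)
  choose hh hhF hhv hhg using hval
  have hη : ∀ i, ∃ η : ℝ, 0 < η ∧ v.Ge (c - σ i + η) ((DH (DD i 1) (hh i) f).eval z) :=
    fun i => exists_ge_of_gt (hhg i)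
  choose η hη hηg using hη
  obtain ⟨ε₀, hε₀, hε₀'⟩ := exists_pos_le η hη
  obtain ⟨ε, hε, hε1, hε2⟩ : ∃ ε : ℝ, 0 < ε ∧ ε ≤ μ / 4 ∧ ∀ i, ε ≤ η i :=
    ⟨min (μ / 4) ε₀, lt_min (by linarith) hε₀, min_le_left _ _,
      fun i => (min_le_right _ _).trans (hε₀' i)⟩
  obtain ⟨E, hE, hEW, hEn⟩ := h.der ε hε
  obtain ⟨θ₀, hθ₀, h0⟩ := hz.lim (μ / 4) (by linarith)
  -- the critical element
  have h4 : v.Ge (c - τ) ((DH E (E θ₀) f).eval z) := by
    intro h5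
    refine le_of_forall_pos_le_add fun ε' hε' => ?_
    obtain ⟨G', hG', h6⟩ := LP.poly p hz hlp hε'
    have h7 := E_ge (T := c - ε') (t' := c - s + μ₃) (ti := fun i => c - σ i + η i) hz h.dir hε.le hE
      hEn (by linarith) hθ₀ h0 (sub_mem hf (pow_mem hG' p)) hhv hhF h6
      (by rw [derivative_sub_pow p]; exact h3)
      (fun i => by
        rw [DH_sub (hn i).toDer hf (pow_mem hG' p), DH_pow_p (hn i).toDer p hG', sub_zero]
        exact hηg i)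
      (by linarith) (fun i => by linarith [hε2 i]) (by linarith) (by linarith)
    rw [DH_sub hE hf (pow_mem hG' p), DH_pow_p hE p hG', sub_zero] at h7
    linarith [h7 h5]
  have h5 := DH_jet_gt hz hE (hE.mem _ hθ₀) hf h4 hl
  -- the null element
  have h6 : v.Ge (c' + μ / 2 - τ) ((DH E (E θ₀) n).eval z) := by
    have hr : n - G ^ p ∈ PI F := sub_mem hnm (pow_mem hG p)
    have h7 := E_ge (T := c' + μ / 2) (t' := c' + μ₁ - s)
      (ti := fun i => c' + μ₁ - σ i - μ / 4) hz h.dir hε.le hE hEn (by linarith) hθ₀ h0 hr hhv hhF h1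
      (small_dz hz hr h1)
      (fun i => DH_ge hz (hn i) (hhF i) hr (hhv i) h1 (small_dz hz hr h1) (by linarith)
        (by linarith))
      (by linarith) (fun i => by linarith) (by linarith) (by linarith)
    rwa [DH_sub hE hnm (pow_mem hG p), DH_pow_p hE p hG, sub_zero] at h7
  have h7 : Gt v (c' - τ) (E a) := by
    have e : E a = (DH E (E θ₀) (hasseDeriv l f)).eval z - (DH E (E θ₀) n).eval z := by
      rw [hndef, DH_sub hE hfl (C_mem_PI ha), eval_sub, DH_C hE, eval_C]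
      ring
    rw [e]
    exact (h5.mono (by linarith)).sub (Gt.of_ge h6 (by linarith))
  -- the element of `F`
  have hgF : g ∈ F := h.wf hg
  have hX : X₀ ∈ F := h.wf h.x0
  have hm0 : a - g ^ p * X₀ ∈ F := sub_mem ha (mul_mem (pow_mem hgF p) hX)
  have h8 : Gt v (c' - τ) (E (g ^ p * X₀)) := by
    have h9 : v.Ge (c' + μ / 2 - τ) (E (a - g ^ p * X₀ - G₀ ^ p)) := by
      have hm : a - g ^ p * X₀ - G₀ ^ p ∈ F := sub_mem hm0 (pow_mem hG₀ p)
      refine hEn _ hm (c' + μ / 2) (h2.mono (by linarith)) fun i => ?_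
      exact ((hn i).norm _ hm _ h2).mono (by linarith)
    rw [hE.sub hm0 (pow_mem hG₀ p), hE.pow_p p hG₀, sub_zero,
      hE.sub ha (mul_mem (pow_mem hgF p) hX)] at h9
    have e : E (g ^ p * X₀) = E a - (E a - E (g ^ p * X₀)) := by ring
    rw [e]
    exact h7.sub (Gt.of_ge h9 (by linarith))
  rw [hE.mul _ (pow_mem hgF p) _ hX, hE.pow_p p hgF, mul_zero, add_zero, hEW X₀ h.x0] at h8
  by_cases hg0 : g = 0
  · rw [hg0, zero_pow hp.out.ne_zero, zero_mul]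
    exact PG.of_gt Gt.zero
  have hgp : g ^ p ≠ 0 := pow_ne_zero p hg0
  have h9 := h8 (mul_ne_zero hgp h.xne)
  rw [v.map_mul hgp h.xne, v.map_pow hg0, h.xv] at h9
  exact h.null hgF hg0 (by linarith)

end Pool.Agent.TWM0
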