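import Pool.Agent.Lib.TWM0.E

/-!
# TANK W, the coefficients of a critical element, part F: strict derivatives

`f(z)` critical, with all first derivatives strict (the derivative in `z`, and those along the
directions of `F`):

* `Cx.base_strict`: if the `p`-jets are null, then `f(z)` is `g ^ p X₀` up to null elements, `g ∈ U`;
* `Cx.fact0`: the `p`-jets are null.
-/

set_option autoImplicit false

open Polynomial Finset

namespace Pool.Agent.TWM0

open Pool.Agent.H15JM (RVal)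
open Pool.Agent.TWM
open Pool.Agent.TWLM (HSd Oi exists_ge_of_gt)
open Pool.Agent.TWII (LP PG)

universe u

variable {k Ω : Type u} [Field k] [Field Ω] [Algebra k Ω] {v : RVal Ω}
  {W F : IntermediateField k Ω} {U : Set Ω} {s ν τ : ℝ} {z : Ω} {ι : Type} [Fintype ι]
  {σ : ι → ℝ} {DD : ι → ℕ → Ω → Ω} {D : Ω → Ω} {p : ℕ} [hp : Fact p.Prime] [CharP Ω p] {X₀ : Ω} {lam c : ℝ}
  {f : Polynomial Ω}

omit [Fintype ι] in
/-- **The base.** -/
theorem Cx.base_strict [IsAlgClosed Ω] (h : Cx p v W F U s z σ DD D τ X₀ lam) (hf : f ∈ PI F)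
    (hlp : LP p v (cadj v F z) c (f.eval z)) (hdz : Gt v (c - s) ((derivative f).eval z))
    (hsd : ∀ i, SD v F s z (σ i) (DD i 1) c f)
    (hj : ∀ l : ℕ, p ∣ l → l ≠ 0 → PG p v (cadj v F z) (c - l * s) ((taylor z f).coeff l)) :
    ∃ a ∈ F, ∃ g ∈ U, PG p v (cadj v F z) c (f.eval z - a) ∧ PG p v F c (a - g ^ p * X₀) := by
  have hz := h.tl
  have hn := fun i => (h.dir i).nder
  obtain ⟨a, ha, h1⟩ := PG.base p hz hf (fun l hl => by
    rcases eq_or_ne l 1 with rfl | h2
    · rw [taylor_coeff, hasseDeriv_one, Nat.cast_one, one_mul]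
      exact hdz
    · have h3 : l ≠ 0 := fun h4 => hl (h4 ▸ dvd_zero p)
      exact LP.jet_prime_gt p hz hf hlp hl (by omega)) hj
  have h2 : LP p v F c a := by
    have e : a = f.eval z - (f.eval z - a) := by ring
    have h3 : LP p v (cadj v F z) c a := by
      rw [e]
      exact hlp.sub (LP.of_pg h1)
    exact LP.down hz ha h3
  have h3 : ∀ i, Gt v (c - σ i) (DD i 1 a) := by
    intro i
    have hnm : f - C a ∈ PI F := sub_mem hf (C_mem_PI ha)
    have h4 : PG p v (cadj v F z) c ((f - C a).eval z) := by rwa [eval_sub, eval_C]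
    obtain ⟨r, hr, h5⟩ := null_DH p hz (hn i) hnm h4
    obtain ⟨h₀, hh₀, h6, h7⟩ := (hsd i).exists_vl hz.lim (hn i) r hr
    have e : DD i 1 a = (DH (DD i 1) h₀ f).eval z - (DH (DD i 1) h₀ (f - C a)).eval z := by
      rw [DH_sub (hn i).toDer hf (C_mem_PI ha), eval_sub, DH_C (hn i).toDer, eval_C]
      ring
    rw [e]
    exact h7.sub (h5 h₀ hh₀ h6)
  obtain ⟨g, hg, h4⟩ := h.cls c a ha h2 h3
  exact ⟨a, ha, g, hg, h1, h4⟩

/-- **The `p`-jets of a critical element with strict derivatives are null.** -/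
theorem Cx.fact0 [IsAlgClosed Ω] (h : Cx p v W F U s z σ DD D τ X₀ lam) (hf : f ∈ PI F)
    (hlp : LP p v (cadj v F z) c (f.eval z)) (hdz : Gt v (c - s) ((derivative f).eval z))
    (hsd : ∀ i, SD v F s z (σ i) (DD i 1) c f) :
    ∀ l : ℕ, p ∣ l → l ≠ 0 → PG p v (cadj v F z) (c - l * s) ((taylor z f).coeff l) := by
  classical
  have hz := h.tl
  by_contra hcon
  let H : ℕ → Prop := fun l => p ∣ l ∧ l ≠ 0 ∧
    ¬ PG p v (cadj v F z) (c - l * s) ((taylor z f).coeff l)
  have hHb : ∀ l, H l → l ≤ f.natDegree := by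
    rintro l ⟨-, -, h3⟩
    by_contra hlt
    apply h3
    rw [taylor_coeff, hasseDeriv_eq_zero_of_lt_natDegree f l (by omega), eval_zero]
    exact PG.of_gt Gt.zero
  obtain ⟨l₀, hl₀⟩ : ∃ l, H l := by
    by_contra h1
    exact hcon fun l hpl hl0 => by
      by_contra h2
      exact h1 ⟨l, hpl, hl0, h2⟩
  obtain ⟨l, hl, hmax⟩ : ∃ l, H l ∧ ∀ l', l < l' → ¬ H l' := by
    refine ⟨Nat.findGreatest H f.natDegree, Nat.findGreatest_spec (hHb l₀ hl₀) hl₀,
      fun m' hm' h1 => ?_⟩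
    have := Nat.le_findGreatest (hHb m' h1) h1
    omega
  obtain ⟨hpl, hl0, hnl⟩ := hl
  set f' := hasseDeriv l f with hf'
  have hf'm : f' ∈ PI F := hasse_mem_PI hf l
  have h1 : LP p v (cadj v F z) (c - l * s) (f'.eval z) := by
    have := LP.jet p hz hf hlp hpl
    rwa [taylor_coeff] at this
  have h2 : Gt v (c - l * s - s) ((derivative f').eval z) := by
    have := jets_dz hz hf hdz.ge hl0
    exact this.mono (by linarith)
  have h3 : ∀ i, SD v F s z (σ i) (DD i 1) (c - l * s) f' := fun i =>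
    (h.dir i).jets_sd p hz h.wf h.rep hf hlp hl0
  have h4 : ∀ j : ℕ, p ∣ j → j ≠ 0 → PG p v (cadj v F z) (c - l * s - j * s)
      ((taylor z f').coeff j) := by
    intro j hpj hj0
    have h5 : PG p v (cadj v F z) (c - (j + l : ℕ) * s) ((taylor z f).coeff (j + l)) := by
      by_contra h6
      exact hmax (j + l) (by omega) ⟨dvd_add hpj hpl, by omega, h6⟩
    rw [hf', TWJ.jet_jet]
    refine (h5.natCast_mul _).mono (le_of_eq ?_)
    push_cast
    ring
  obtain ⟨a, ha, g, hg, h5, h6⟩ := h.base_strict hf'm h1 h2 h3 h4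
  have h7 := h.e_step hf hlp hdz hsd hl0 ha (h.uw g hg) h5 h6
  apply hnl
  have e : (taylor z f).coeff l = (f'.eval z - a) + ((a - g ^ p * X₀) + g ^ p * X₀) := by
    rw [taylor_coeff]
    ring
  rw [e]
  exact h5.add ((PG.up h6).add (PG.up h7))

/-- **A critical element with strict derivatives.** -/
theorem Cx.fact1 [IsAlgClosed Ω] (h : Cx p v W F U s z σ DD D τ X₀ lam) (hf : f ∈ PI F)
    (hlp : LP p v (cadj v F z) c (f.eval z)) (hdz : Gt v (c - s) ((derivative f).eval z))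
    (hsd : ∀ i, SD v F s z (σ i) (DD i 1) c f) :
    ∃ g ∈ U, PG p v (cadj v F z) c (f.eval z - g ^ p * X₀) := by
  obtain ⟨a, ha, g, hg, h5, h6⟩ := h.base_strict hf hlp hdz hsd (h.fact0 hf hlp hdz hsd)
  refine ⟨g, hg, ?_⟩
  have e : f.eval z - g ^ p * X₀ = (f.eval z - a) + (a - g ^ p * X₀) := by ring
  rw [e]
  exact h5.add (PG.up h6)

end Pool.Agent.TWM0
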