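import Pool.Agent.Lib.TWM0.F

/-!
# TANK W, the coefficients of a critical element, part G: the jets

`K = F⟨z⟩`, `f(z)` a limit of `K ^ p` up to `c`:

* `Cx.jets`: every `p`-jet is `g ^ p X₀` up to null elements, with `g ∈ U`;
* `Cx.jets_np`: the `p`-jets of order not a power of `p` are null;
* `Cx.exact`: `X₀` is at the distance `lam`;
* `Cx.tie`: `f(z) = e z + X₀ ∑ g_i ^ p z ^ (p ^ (i + 1)) + a₀` up to null elements, `e` and the `g_i`
  representatives, `a₀ ∈ F`.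
-/

set_option autoImplicit false

open Polynomial Finset

namespace Pool.Agent.TWM0

open Pool.Agent.H15JM (RVal)
open Pool.Agent.TWM
open Pool.Agent.TWLM (HSd Oi exists_ge_of_gt)
open Pool.Agent.TWII (LP PG)

universe u

variable {k Ω : Type u} [Field k] [Field Ω] [Algebra k Ω] {v : RVal Ω}
  {W F : IntermediateField k Ω} {U : Set Ω} {s ν τ : ℝ} {z : Ω} {ι : Type} [Fintype ι]
  {σ : ι → ℝ} {DD : ι → ℕ → Ω → Ω} {D : Ω → Ω} {p : ℕ} [hp : Fact p.Prime] [CharP Ω p] {X₀ : Ω}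
  {lam c : ℝ} {f : Polynomial Ω}

/-- The hypotheses of `fact0` for a proper `p`-jet. -/
theorem Cx.jet_hyp [IsAlgClosed Ω] (h : Cx p v W F U s z σ DD D τ X₀ lam) (hf : f ∈ PI F)
    (hlp : LP p v (cadj v F z) c (f.eval z)) {l : ℕ} (hpl : p ∣ l) (hl0 : l ≠ 0) :
    hasseDeriv l f ∈ PI F ∧ LP p v (cadj v F z) (c - l * s) ((hasseDeriv l f).eval z) ∧
      Gt v (c - l * s - s) ((derivative (hasseDeriv l f)).eval z) ∧
      ∀ i, SD v F s z (σ i) (DD i 1) (c - l * s) (hasseDeriv l f) := by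
  have hz := h.tl
  refine ⟨hasse_mem_PI hf l, ?_, ?_, fun i => (h.dir i).jets_sd p hz h.wf h.rep hf hlp hl0⟩
  · have := LP.jet p hz hf hlp hpl
    rwa [taylor_coeff] at this
  · exact (jets_dz hz hf (crit_dz p hz hf hlp) hl0).mono (by linarith)

/-- **The `p`-jets of a critical element.** -/
theorem Cx.jets [IsAlgClosed Ω] (h : Cx p v W F U s z σ DD D τ X₀ lam) (hf : f ∈ PI F)
    (hlp : LP p v (cadj v F z) c (f.eval z)) (l : ℕ) (hpl : p ∣ l) (hl0 : l ≠ 0) :
    ∃ g ∈ U, PG p v (cadj v F z) (c - l * s) ((taylor z f).coeff l - g ^ p * X₀) := by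
  obtain ⟨h1, h2, h3, h4⟩ := h.jet_hyp hf hlp hpl hl0
  rw [taylor_coeff]
  exact h.fact1 h1 h2 h3 h4

/-- **The `p`-jets of order not a power of `p`.** -/
theorem Cx.jets_np [IsAlgClosed Ω] (h : Cx p v W F U s z σ DD D τ X₀ lam) (hf : f ∈ PI F)
    (hlp : LP p v (cadj v F z) c (f.eval z)) (l : ℕ) (hpl : p ∣ l) (hl0 : l ≠ 0)
    (hl : ∀ i, l ≠ p ^ i) : PG p v (cadj v F z) (c - l * s) ((taylor z f).coeff l) := by
  obtain ⟨i, j, h1, h2, h3, h4, h5⟩ := TWII.exists_choose' p hpl hl0 hl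
  have hpj : p ∣ j := (Nat.dvd_add_right h1).1 (h4 ▸ hpl)
  obtain ⟨e1, e2, e3, e4⟩ := h.jet_hyp hf hlp hpj h3
  have h6 := h.fact0 e1 e2 e3 e4 i h1 h2
  rw [TWJ.jet_jet, h4] at h6
  rw [h4] at h5
  refine (PG.of_natCast_mul h5 h6).mono (le_of_eq ?_)
  rw [← h4]
  push_cast
  ring

omit [Fintype ι] in
/-- **`X₀` is at the distance `lam`.** -/
theorem Cx.exact (h : Cx p v W F U s z σ DD D τ X₀ lam) {g : Ω} (hg : g ∈ W) (h0 : g ≠ 0)
    (hl : LP p v F c (g ^ p * X₀)) : c ≤ p * v g + lam := by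
  refine le_of_forall_pos_le_add fun ε hε => ?_
  obtain ⟨a, ha, h1⟩ := hl ε hε
  obtain ⟨E, hE, hEW, hEn⟩ := h.der 1 one_pos
  have hgF : g ∈ F := h.wf hg
  have hX : X₀ ∈ F := h.wf h.x0
  have hm : g ^ p * X₀ ∈ F := mul_mem (pow_mem hgF p) hX
  have h2 := hEn _ (sub_mem hm (pow_mem ha p)) _ h1 fun i => by
    have hn := (h.dir i).nder.toDer
    rw [hn.sub hm (pow_mem ha p), hn.pow_p p ha, hn.mul _ (pow_mem hgF p) _ hX, hn.pow_p p hgF,
      (h.dir i).cst 1 one_ne_zero X₀ h.x0]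
    simp only [mul_zero, add_zero, sub_zero]
    exact RVal.Ge.zero
  rw [hE.sub hm (pow_mem ha p), hE.pow_p p ha, hE.mul _ (pow_mem hgF p) _ hX, hE.pow_p p hgF,
    mul_zero, add_zero, sub_zero, hEW X₀ h.x0] at h2
  have h3 := h2 (mul_ne_zero (pow_ne_zero p h0) h.xne)
  rw [v.map_mul (pow_ne_zero p h0) h.xne, v.map_pow h0, h.xv] at h3
  linarith

/-- **The form of a critical element.** -/
theorem Cx.tie [IsAlgClosed Ω] (h : Cx p v W F U s z σ DD D τ X₀ lam)
    {M : Set Ω} (hM0 : (0 : Ω) ∈ M) (hMW : ∀ m ∈ M, m ∈ W)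
    (hM : ∀ a ∈ F, a ≠ 0 → (v a = c - s ∨ ∃ i : ℕ, p * v a + lam = c - (p ^ (i + 1) : ℕ) * s) →
      ∃ m ∈ M, Gt v (v a) (a - m)) (hf : f ∈ PI F)
    (hlp : LP p v (cadj v F z) c (f.eval z)) :
    ∃ (t : ℕ) (e a₀ : Ω) (g : ℕ → Ω), e ∈ M ∧ (e ≠ 0 → v e = c - s) ∧ (∀ i, g i ∈ M) ∧
      (∀ i, g i ≠ 0 → p * v (g i) + lam = c - (p ^ (i + 1) : ℕ) * s) ∧ a₀ ∈ F ∧
      PG p v (cadj v F z) c (f.eval z -
        (e * z + X₀ * ∑ i ∈ range t, g i ^ p * z ^ p ^ (i + 1) + a₀)) := by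
  classical
  have hz := h.tl
  have hp0 := hp.out.pos
  have hp1 : ¬ p ∣ 1 := fun h5 => hp.out.one_lt.not_ge (Nat.le_of_dvd one_pos h5)
  set K := cadj v F z with hK
  have hX : X₀ ∈ F := h.wf h.x0
  -- the coefficients
  have hpp : ∀ i : ℕ, p ∣ p ^ (i + 1) := fun i => dvd_pow_self p (by omega)
  have hp0' : ∀ i : ℕ, p ^ (i + 1) ≠ 0 := fun i => (Nat.pow_pos hp0).ne'
  have hg1 : ∀ i : ℕ, ∃ g ∈ M, (g ≠ 0 → p * v g + lam = c - (p ^ (i + 1) : ℕ) * s) ∧
      PG p v K (c - (p ^ (i + 1) : ℕ) * s) ((taylor z f).coeff (p ^ (i + 1)) - g ^ p * X₀) := by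
    intro i
    obtain ⟨g, hg, h1⟩ := h.jets hf hlp (p ^ (i + 1)) (hpp i) (hp0' i)
    have hgW := h.uw g hg
    have hgF := h.wf hgW
    by_cases h2 : g ≠ 0 → p * v g + lam = c - (p ^ (i + 1) : ℕ) * s
    · by_cases h3 : g = 0
      · exact ⟨0, hM0, fun h8 => absurd rfl h8, by rwa [h3] at h1⟩
      · obtain ⟨m, hm, h4⟩ := hM g hgF h3 (Or.inr ⟨i, h2 h3⟩)
        obtain ⟨h5, h6⟩ := h4.val_eq h3
        refine ⟨m, hm, fun _ => by rw [h6]; exact h2 h3, ?_⟩
        have e : (taylor z f).coeff (p ^ (i + 1)) - m ^ p * X₀ =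
            ((taylor z f).coeff (p ^ (i + 1)) - g ^ p * X₀) + (g - m) ^ p * X₀ := by
          rw [sub_pow_char]
          ring
        rw [e]
        refine h1.add ?_
        by_cases h7 : g - m = 0
        · rw [h7, zero_pow hp.out.ne_zero, zero_mul]
          exact PG.of_gt Gt.zero
        · refine PG.up (h.null (sub_mem hgF (h.wf (hMW m hm))) h7 ?_)
          have h8 := h4 h7
          have h9 : (0 : ℝ) < p := by exact_mod_cast hp0
          have h10 := mul_lt_mul_of_pos_left h8 h9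
          linarith [h2 h3]
    · obtain ⟨h3, h4⟩ := Classical.not_imp.1 h2
      have h5 : LP p v F (c - (p ^ (i + 1) : ℕ) * s) (g ^ p * X₀) := by
        refine LP.down hz (mul_mem (pow_mem hgF p) hX) ?_
        have e : g ^ p * X₀ = (taylor z f).coeff (p ^ (i + 1)) -
            ((taylor z f).coeff (p ^ (i + 1)) - g ^ p * X₀) := by ring
        rw [e]
        exact (LP.jet p hz hf hlp (hpp i)).sub (LP.of_pg h1)
      have h6 := h.exact hgW h3 h5
      have h7 := h.null hgF h3 (lt_of_le_of_ne h6 (Ne.symm h4))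
      refine ⟨0, hM0, fun h8 => absurd rfl h8, ?_⟩
      have e : (taylor z f).coeff (p ^ (i + 1)) - (0 : Ω) ^ p * X₀ =
          ((taylor z f).coeff (p ^ (i + 1)) - g ^ p * X₀) + g ^ p * X₀ := by
        rw [zero_pow hp.out.ne_zero]
        ring
      rw [e]
      exact h1.add (PG.up h7)
  choose g hgU hgv hgj using hg1
  -- the linear coefficient
  obtain ⟨e, heM, hev, he⟩ : ∃ e ∈ M, (e ≠ 0 → v e = c - s) ∧
      Gt v (c - s) ((taylor z f).coeff 1 - e) := by
    have h1 := LP.jet_prime p hz hf hlp hp1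
    rw [Nat.cast_one, one_mul] at h1
    by_cases h0 : Gt v (c - s) ((taylor z f).coeff 1)
    · exact ⟨0, hM0, fun h2 => absurd rfl h2, by rwa [sub_zero]⟩
    · have h2 : (taylor z f).coeff 1 ≠ 0 := fun h3 => h0 (by rw [h3]; exact Gt.zero)
      have h3 : v ((taylor z f).coeff 1) = c - s := by
        refine le_antisymm ?_ (h1 h2)
        by_contra h4
        exact h0 fun _ => not_le.1 h4
      have hmem : (taylor z f).coeff 1 ∈ K := by
        rw [taylor_coeff]
        exact eval_mem_cadj (hasse_mem_PI hf _)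
      obtain ⟨a, ha, h4⟩ := hz.imm.imm _ hmem h2
      obtain ⟨h5, h6⟩ := h4.val_eq h2
      obtain ⟨m, hm, h7⟩ := hM a ha h5 (Or.inl (by rw [h6, h3]))
      obtain ⟨-, h8⟩ := h7.val_eq h5
      refine ⟨m, hm, fun _ => by rw [h8, h6, h3], ?_⟩
      have e1 : (taylor z f).coeff 1 - m = ((taylor z f).coeff 1 - a) + (a - m) := by ring
      rw [e1]
      rw [h6, h3] at h7
      rw [h3] at h4
      exact h4.add h7
  -- the remainder
  set t := f.natDegree with ht
  set A : ℕ → Ω := fun i => g i ^ p * X₀ with hA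
  have hAF : ∀ i, A i ∈ F := fun i => mul_mem (pow_mem (h.wf (hMW _ (hgU i))) p) hX
  set b : ℕ → Ω := fun i => if i = 0 then e else A (i - 1) with hb
  have hbF : ∀ i, b i ∈ F := by
    intro i
    rw [hb]
    dsimp only
    split_ifs
    exacts [h.wf (hMW e heM), hAF _]
  set Q : Polynomial Ω := TWM.addP p (t + 1) b with hQ
  have hQm : Q ∈ PI F := TWM.addP_mem hbF
  have hQe : ∀ x : Ω, Q.eval x = e * x + ∑ i ∈ range t, A i * x ^ p ^ (i + 1) := by
    intro x
    rw [hQ, TWM.addP_eval, sum_range_succ']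
    simp only [hb, if_true, pow_zero, pow_one, Nat.add_sub_cancel, Nat.succ_ne_zero, if_false]
    rw [add_comm]
  have hQj : ∀ l : ℕ, 1 ≤ l → (taylor z Q).coeff l =
      ∑ i ∈ range (t + 1), if l = p ^ i then b i else 0 := fun l hl =>
    TWM.coeff_taylor_addP p (t + 1) b z hl
  have hQ1 : (taylor z Q).coeff 1 = e := by
    have h1 := TWM.coeff_taylor_addP_pow p (t + 1) b z 0
    rw [pow_zero, if_pos (by omega)] at h1
    rw [hQ, h1, hb]
    simp
  have hQi : ∀ i : ℕ, (taylor z Q).coeff (p ^ (i + 1)) = if i < t then A i else 0 := by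
    intro i
    have h1 := TWM.coeff_taylor_addP_pow p (t + 1) b z (i + 1)
    rw [hQ, h1, hb]
    simp only [Nat.succ_ne_zero, if_false, Nat.add_sub_cancel]
    by_cases h2 : i < t
    · rw [if_pos h2, if_pos (by omega)]
    · rw [if_neg h2, if_neg (by omega)]
  have hQ0 : ∀ l : ℕ, 1 ≤ l → (∀ i, l ≠ p ^ i) → (taylor z Q).coeff l = 0 := by
    intro l hl h1
    rw [hQj l hl]
    exact sum_eq_zero fun i _ => if_neg (h1 i)
  obtain ⟨a₀, ha₀, hB⟩ := PG.base p hz (sub_mem hf hQm) (ν := c) (by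
    intro l hpl
    have hl0 : l ≠ 0 := by
      rintro rfl
      exact hpl (dvd_zero p)
    rw [map_sub, coeff_sub]
    rcases eq_or_ne l 1 with rfl | hl1
    · rw [hQ1, Nat.cast_one, one_mul]
      exact he
    · rw [hQ0 l (by omega) (fun i hi => by
        rcases i with _ | i
        · exact hl1 (by rw [hi, pow_zero])
        · exact hpl (by rw [hi]; exact dvd_pow_self p (by omega))), sub_zero]
      exact LP.jet_prime_gt p hz hf hlp hpl (by omega)) (by
    intro l hpl hl0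
    rw [map_sub, coeff_sub]
    by_cases h1 : ∃ i, l = p ^ (i + 1)
    · obtain ⟨i, rfl⟩ := h1
      rw [hQi]
      split_ifs with h2
      · exact hgj i
      · rw [sub_zero, coeff_eq_zero_of_natDegree_lt (by
          rw [natDegree_taylor]
          have : i + 1 < p ^ (i + 1) := Nat.lt_pow_self hp.out.one_lt
          omega)]
        exact PG.of_gt Gt.zero
    · push Not at h1
      have h2 : ∀ i, l ≠ p ^ i := by
        intro i hi
        rcases i with _ | i
        · rw [pow_zero] at hi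
          exact hp1 (hi ▸ hpl)
        · exact h1 i hi
      rw [hQ0 l (by omega) h2, sub_zero]
      exact h.jets_np hf hlp l hpl hl0 h2)
  refine ⟨t, e, a₀, g, heM, hev, hgU, hgv, ha₀, ?_⟩
  have e1 : f.eval z - (e * z + X₀ * ∑ i ∈ range t, g i ^ p * z ^ p ^ (i + 1) + a₀) =
      (f - Q).eval z - a₀ := by
    rw [eval_sub, hQe, mul_sum]
    have e2 : ∑ i ∈ range t, X₀ * (g i ^ p * z ^ p ^ (i + 1)) =
        ∑ i ∈ range t, A i * z ^ p ^ (i + 1) := by
      refine sum_congr rfl fun i _ => ?_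
      rw [hA]
      ring
    rw [e2]
    ring
  rw [e1]
  exact hB

end Pool.Agent.TWM0
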